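import Pool.Agent.N597.QP.Geo
import Pool.Agent.Helper448.Warren
set_option autoImplicit false

/-!
# Counting the combinatorial types of linear programs
-/

namespace Pool.Agent.N597.QP

open Finset Matrix MvPolynomial

variable {m n : ℕ}

/-- `B` is the set of tight rows of a vertex -/
def VV (A : Fin m → Fin n → ℝ) (b : Fin m → ℝ) (B : Finset (Fin m)) : Prop :=
  ∃ q, IsVertex A b q ∧ tight A b q = B

open Classical in
/-- the vertex with the tight rows `B` -/
noncomputable def pt (A : Fin m → Fin n → ℝ) (b : Fin m → ℝ) (B : Finset (Fin m)) : Fin n → ℝ :=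
  if h : VV A b B then h.choose else 0

open Classical in
/-- the improving rows -/
noncomputable def SS (A : Fin m → Fin n → ℝ) (b : Fin m → ℝ) (c : Fin n → ℝ)
    (B : Finset (Fin m)) : Finset (Fin m) :=
  if VV A b B then improv A b c (pt A b B) else ∅

variable {A : Fin m → Fin n → ℝ} {b : Fin m → ℝ} {c : Fin n → ℝ}

lemma pt_spec {B : Finset (Fin m)} (h : VV A b B) :
    IsVertex A b (pt A b B) ∧ tight A b (pt A b B) = B := by
  unfold pt
  rw [dif_pos h]
  exact h.choose_spec

lemma IsVertex.eq_of_tight {q q' : Fin n → ℝ} (hq : IsVertex A b q)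
    (h : tight A b q' = tight A b q) : q' = q :=
  hq.2 q' fun i hi => mem_tight.1 (h ▸ hi)

lemma pt_tight {q : Fin n → ℝ} (hq : IsVertex A b q) : pt A b (tight A b q) = q :=
  hq.eq_of_tight (pt_spec ⟨q, hq, rfl⟩).2

lemma SS_tight {q : Fin n → ℝ} (hq : IsVertex A b q) :
    SS A b c (tight A b q) = improv A b c q := by
  unfold SS
  rw [if_pos ⟨q, hq, rfl⟩, pt_tight hq]

/-! ### Polynomials -/

/-- variables -/
abbrev Var (m n : ℕ) := (Fin m × Fin n) ⊕ (Fin m ⊕ Fin n)

/-- rows as variables -/
noncomputable def pM (e : Fin n → Fin m) : Matrix (Fin n) (Fin n) (MvPolynomial (Var m n) ℝ) :=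
  Matrix.of fun i j => X (Sum.inl (e i, j))

/-- the polynomials whose signs determine the combinatorial type -/
noncomputable def pp (x : (Fin n → Fin m) × Option (Fin m ⊕ Fin n)) :
    MvPolynomial (Var m n) ℝ :=
  match x with
  | (e, none) => (pM e).det
  | (e, some (Sum.inl r)) => (pM e).det * (X (Sum.inr (Sum.inl r)) * (pM e).det -
      ∑ k, X (Sum.inl (r, k)) * ((pM e).updateCol k fun i => X (Sum.inr (Sum.inl (e i)))).det)
  | (e, some (Sum.inr k)) => (pM e).det *
      ((pM e).updateRow k fun j => X (Sum.inr (Sum.inr j))).det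

lemma totalDegree_det_le (M : Matrix (Fin n) (Fin n) (MvPolynomial (Var m n) ℝ))
    (hM : ∀ i j, (M i j).totalDegree ≤ 1) : M.det.totalDegree ≤ n := by
  rw [det_apply]
  apply (totalDegree_finset_sum _ _).trans
  apply Finset.sup_le
  intro σ _
  refine (totalDegree_smul_le _ _).trans ?_
  refine (totalDegree_finset_prod _ _).trans ?_
  refine (Finset.sum_le_sum fun i _ => hM _ _).trans ?_
  simp

lemma totalDegree_pM (e : Fin n → Fin m) : (pM e).det.totalDegree ≤ n :=
  totalDegree_det_le _ fun i j => by simp [pM]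

lemma totalDegree_pp (x : (Fin n → Fin m) × Option (Fin m ⊕ Fin n)) :
    (pp x).totalDegree ≤ 2 * n + 1 := by
  rcases x with ⟨e, _ | r | k⟩
  · exact (totalDegree_pM e).trans (by omega)
  · unfold pp
    simp only
    refine (totalDegree_mul _ _).trans ?_
    have h1 := totalDegree_pM e
    have h2 : (X (Sum.inr (Sum.inl r)) * (pM e).det -
      ∑ k, X (Sum.inl (r, k)) * ((pM e).updateCol k fun i =>
        X (Sum.inr (Sum.inl (e i)))).det : MvPolynomial (Var m n) ℝ).totalDegree ≤ n + 1 := by
      refine (totalDegree_sub _ _).trans (max_le ?_ ?_)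
      · refine (totalDegree_mul _ _).trans ?_
        rw [totalDegree_X]
        omega
      · refine (totalDegree_finset_sum _ _).trans (Finset.sup_le fun k _ => ?_)
        refine (totalDegree_mul _ _).trans ?_
        rw [totalDegree_X]
        have : ((pM e).updateCol k fun i =>
            X (Sum.inr (Sum.inl (e i)))).det.totalDegree ≤ n := by
          apply totalDegree_det_le
          intro i j
          rw [updateCol_apply]
          split_ifs
          · simp
          · simp [pM]
        omega
    omega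
  · unfold pp
    simp only
    refine (totalDegree_mul _ _).trans ?_
    have h1 := totalDegree_pM e
    have h2 : ((pM e).updateRow k fun j => X (Sum.inr (Sum.inr j))).det.totalDegree ≤ n := by
      apply totalDegree_det_le
      intro i j
      rw [updateRow_apply]
      split_ifs
      · simp
      · simp [pM]
    omega

/-- the valuation -/
def valu (A : Fin m → Fin n → ℝ) (b : Fin m → ℝ) (c : Fin n → ℝ) : Var m n → ℝ
  | Sum.inl p => A p.1 p.2
  | Sum.inr (Sum.inl i) => b i
  | Sum.inr (Sum.inr j) => c j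

lemma eval_det (e : Fin n → Fin m) :
    eval (valu A b c) (pM e).det = (rowMat A e).det := by
  rw [RingHom.map_det]
  congr 1
  ext i j
  simp [pM, rowMat, valu]

lemma eval_none (e : Fin n → Fin m) :
    eval (valu A b c) (pp (e, none)) = (rowMat A e).det := eval_det e

lemma eval_inl (e : Fin n → Fin m) (r : Fin m) :
    eval (valu A b c) (pp (e, some (Sum.inl r))) = (rowMat A e).det *
      (b r * (rowMat A e).det - A r ⬝ᵥ cramer (rowMat A e) fun i => b (e i)) := by
  unfold pp
  simp only [map_mul, map_sub, map_sum, eval_X, eval_det, valu]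
  congr 2
  unfold dotProduct
  refine sum_congr rfl fun k _ => ?_
  rw [cramer_apply, RingHom.map_det]
  congr 2
  ext i j
  simp only [RingHom.mapMatrix_apply, Matrix.map_apply, updateCol_apply]
  split_ifs
  · simp [valu]
  · simp [pM, rowMat, valu]

lemma eval_inr (e : Fin n → Fin m) (k : Fin n) :
    eval (valu A b c) (pp (e, some (Sum.inr k))) = (rowMat A e).det *
      ((rowMat A e).updateRow k c).det := by
  unfold pp
  simp only [map_mul, eval_det]
  congr 1
  rw [RingHom.map_det]
  congr 1
  ext i j
  simp only [RingHom.mapMatrix_apply, Matrix.map_apply, updateRow_apply]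
  split_ifs
  · simp [valu]
  · simp [pM, rowMat, valu]

/-- the point at which the rows `e` are tight -/
lemma eval_inl' {e : Fin n → Fin m} (hd : (rowMat A e).det ≠ 0) {q : Fin n → ℝ}
    (hq : ∀ k, A (e k) ⬝ᵥ q = b (e k)) (r : Fin m) :
    eval (valu A b c) (pp (e, some (Sum.inl r))) =
      (rowMat A e).det ^ 2 * (b r - A r ⬝ᵥ q) := by
  rw [eval_inl]
  have h1 : cramer (rowMat A e) (fun i => b (e i)) = (rowMat A e).det • q := by
    have h2 : rowMat A e *ᵥ q = fun i => b (e i) := funext hq
    rw [← h2, cramer_eq_adjugate_mulVec, mulVec_mulVec, adjugate_mul, smul_mulVec, one_mulVec]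
  rw [h1, dotProduct_smul, smul_eq_mul]
  ring

/-! ### The combinatorial type as a function of the signs -/

/-- vertices, from signs -/
def VVd (ρ : (Fin n → Fin m) × Option (Fin m ⊕ Fin n) → SignType) (B : Finset (Fin m)) : Prop :=
  ∃ h : B.card = n, ρ (num B h, none) ≠ 0 ∧ ∀ r, r ∉ B → ρ (num B h, some (Sum.inl r)) = 1

open Classical in
/-- improving rows, from signs -/
noncomputable def SSd (ρ : (Fin n → Fin m) × Option (Fin m ⊕ Fin n) → SignType)
    (B : Finset (Fin m)) : Finset (Fin m) :=
  univ.filter fun i => VVd ρ B ∧ ∃ h : B.card = n, ∃ k, num B h k = i ∧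
    ρ (num B h, some (Sum.inr k)) = -1

/-- the signs -/
noncomputable def sgn (A : Fin m → Fin n → ℝ) (b : Fin m → ℝ) (c : Fin n → ℝ) :
    (Fin n → Fin m) × Option (Fin m ⊕ Fin n) → SignType :=
  fun x => SignType.sign (eval (valu A b c) (pp x))

lemma VV_iff (hA : Nondeg A b) (B : Finset (Fin m)) : VV A b B ↔ VVd (sgn A b c) B := by
  constructor
  · rintro ⟨q, hq, rfl⟩
    have h := hA q hq
    have hd := hq.det_ne h
    refine ⟨h, ?_, fun r hr => ?_⟩
    · unfold sgn
      rw [eval_none, Ne, sign_eq_zero_iff]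
      exact hd
    · unfold sgn
      rw [eval_inl' hd (q := q) (fun k => mem_tight.1 (num_mem _ h k)), sign_eq_one_iff]
      have h1 := hq.1 r
      have h2 : A r ⬝ᵥ q ≠ b r := fun hh => hr (mem_tight.2 hh)
      have h3 := lt_of_le_of_ne h1 h2
      have h4 : 0 < b r - A r ⬝ᵥ q := by linarith
      positivity
  · rintro ⟨h, h1, h2⟩
    unfold sgn at h1 h2
    rw [eval_none, Ne, sign_eq_zero_iff] at h1
    have hu : IsUnit (rowMat A (num B h)).det := isUnit_iff_ne_zero.2 h1
    set q := (rowMat A (num B h))⁻¹ *ᵥ fun k => b (num B h k) with hq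
    have hMq : rowMat A (num B h) *ᵥ q = fun k => b (num B h k) := by
      rw [hq, mulVec_mulVec, mul_nonsing_inv _ hu, one_mulVec]
    have hk : ∀ k, A (num B h k) ⬝ᵥ q = b (num B h k) := fun k => congrFun hMq k
    have hin : ∀ i ∈ B, A i ⬝ᵥ q = b i := by
      intro i hi
      obtain ⟨k, rfl⟩ := (range_num B h i).1 hi
      exact hk k
    have hout : ∀ r, r ∉ B → A r ⬝ᵥ q < b r := by
      intro r hr
      have h3 := h2 r hr
      rw [eval_inl' h1 hk, sign_eq_one_iff] at h3
      have h4 : 0 < (rowMat A (num B h)).det ^ 2 := by positivity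
      have := pos_of_mul_pos_right h3 h4.le
      linarith
    have ht : tight A b q = B := by
      ext i
      rw [mem_tight]
      constructor
      · intro h3
        by_contra hi
        exact (hout i hi).ne h3
      · exact hin i
    refine ⟨q, ⟨fun i => ?_, fun q' hq' => ?_⟩, ht⟩
    · by_cases hi : i ∈ B
      · exact (hin i hi).le
      · exact (hout i hi).le
    · rw [ht] at hq'
      have h3 : rowMat A (num B h) *ᵥ q' = fun k => b (num B h k) :=
        funext fun k => hq' _ (num_mem B h k)
      have h4 : (rowMat A (num B h))⁻¹ *ᵥ (rowMat A (num B h) *ᵥ q') = q := by rw [h3]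
      rw [mulVec_mulVec, nonsing_inv_mul _ hu, one_mulVec] at h4
      exact h4

lemma SS_eq (hA : Nondeg A b) (hb : ∃ μ, ∀ p, Feas A b p → c ⬝ᵥ p ≤ μ) (B : Finset (Fin m)) :
    SS A b c B = SSd (sgn A b c) B := by
  classical
  ext i
  unfold SSd
  rw [mem_filter]
  by_cases hB : VV A b B
  · obtain ⟨q, hq, rfl⟩ := hB
    have h := hA q hq
    obtain ⟨y, hy⟩ := hq.exists_mult h c
    have hd := hq.det_ne h
    have hsgn : ∀ k, sgn A b c (num (tight A b q) h, some (Sum.inr k)) = -1 ↔ y k < 0 := by
      intro k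
      unfold sgn
      have e1 : ((rowMat A (num (tight A b q) h)).updateRow k c).det =
          y k * (rowMat A (num (tight A b q) h)).det := by
        conv_lhs => rw [hy]
        rw [det_updateRow_sum, smul_eq_mul]
      rw [eval_inr, e1, sign_eq_neg_one_iff]
      have e2 : (rowMat A (num (tight A b q) h)).det * (y k *
        (rowMat A (num (tight A b q) h)).det) =
        y k * (rowMat A (num (tight A b q) h)).det ^ 2 := by ring
      rw [e2]
      have hpos : 0 < (rowMat A (num (tight A b q) h)).det ^ 2 := by positivity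
      constructor
      · intro h1
        by_contra hcon
        have := mul_nonneg (not_lt.1 hcon) hpos.le
        linarith
      · intro h1
        exact mul_neg_of_neg_of_pos h1 hpos
    rw [SS_tight hq]
    constructor
    · intro hi
      obtain ⟨k, rfl⟩ := (range_num _ h i).1 (mem_improv.1 hi).1
      refine ⟨mem_univ _, (VV_iff hA _).1 ⟨q, hq, rfl⟩, h, k, rfl, (hsgn k).2 ?_⟩
      exact improv_neg hq hy hi
    · rintro ⟨-, -, h', k, rfl, hk⟩
      exact neg_improv hq hb hy ((hsgn k).1 hk)
  · unfold SS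
    rw [if_neg hB]
    constructor
    · intro h; simp at h
    · rintro ⟨-, h, -⟩
      exact absurd ((VV_iff hA B).2 h) hB

/-- the combinatorial types -/
def types (m n : ℕ) : Set ((Finset (Fin m) → Prop) × (Finset (Fin m) → Finset (Fin m))) :=
  {ω | ∃ (A : Fin m → Fin n → ℝ) (b : Fin m → ℝ) (c : Fin n → ℝ), Nondeg A b ∧
    (∃ μ, ∀ p, Feas A b p → c ⬝ᵥ p ≤ μ) ∧ ω = (VV A b, SS A b c)}

theorem types_finite (m n : ℕ) : (types m n).Finite ∧
    (types m n).ncard ≤ (4 * (m ^ n * (m + n + 1)) * (2 * n + 1) + 2) ^ (m * n + (m + n)) := by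
  classical
  have h := Pool.Agent.Helper448.Warren.ncard_sign_patterns_le (pp (m := m) (n := n)) (2 * n + 1)
    totalDegree_pp
  set φ : (Var m n → ℝ) → ((Fin n → Fin m) × Option (Fin m ⊕ Fin n) → SignType) :=
    fun v x => SignType.sign (eval v (pp x)) with hφ
  have h1 : types m n ⊆ (fun ρ => (VVd ρ, SSd ρ)) '' Set.range φ := by
    rintro ω ⟨A, b, c, hA, hb, rfl⟩
    refine ⟨φ (valu A b c), ⟨_, rfl⟩, ?_⟩
    have e1 : VV A b = VVd (sgn A b c) := funext fun B => propext (VV_iff hA B)
    have e2 : SS A b c = SSd (sgn A b c) := funext fun B => SS_eq hA hb B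
    rw [e1, e2]
    rfl
  have hfin : (Set.range φ).Finite := Set.toFinite _
  refine ⟨(hfin.image _).subset h1, ?_⟩
  refine (Set.ncard_le_ncard h1 (hfin.image _)).trans ?_
  refine (Set.ncard_image_le hfin).trans (h.trans ?_)
  have hc : Fintype.card ((Fin n → Fin m) × Option (Fin m ⊕ Fin n)) = m ^ n * (m + n + 1) := by
    simp
  have hI : Fintype.card (Var m n) = m * n + (m + n) := by simp
  rw [hc, hI]

end Pool.Agent.N597.QP
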