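import Pool.Agent.N597.QP.Rec
import Pool.Agent.N597.QP.Count
set_option autoImplicit false

/-!
# The pivot rule for all nondegenerate linear programs
-/

namespace Pool.Agent.N597.QP

open Finset Matrix Str

variable {m n : ℕ}

open Classical in
/-- the next vertex, from the set of all vertices -/
noncomputable def NN (V : Finset (Fin m) → Prop) (B : Finset (Fin m)) (r : Fin m) :
    Finset (Fin m) := if h : ∃ B', V B' ∧ B' ≠ B ∧ B.erase r ⊆ B' then h.choose else B

lemma NN_spec {V : Finset (Fin m) → Prop} {B : Finset (Fin m)} {r : Fin m}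
    (h : ∃ B', V B' ∧ B' ≠ B ∧ B.erase r ⊆ B') :
    V (NN V B r) ∧ NN V B r ≠ B ∧ B.erase r ⊆ NN V B r := by
  unfold NN
  rw [dif_pos h]
  exact h.choose_spec

variable {A : Fin m → Fin n → ℝ} {b : Fin m → ℝ} {c : Fin n → ℝ}

lemma exists_next {B : Finset (Fin m)} {r : Fin m} (hr : r ∈ SS A b c B) :
    VV A b B ∧ ∃ B', VV A b B' ∧ B' ≠ B ∧ B.erase r ⊆ B' := by
  classical
  unfold SS at hr
  split_ifs at hr with hB
  · refine ⟨hB, ?_⟩
    obtain ⟨q, hq, rfl⟩ := hB
    rw [pt_tight hq] at hr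
    obtain ⟨_, q', hq', hlt, hsub⟩ := mem_improv.1 hr
    refine ⟨tight A b q', ⟨q', hq', rfl⟩, fun h => ?_, hsub⟩
    have := hq.eq_of_tight h
    rw [this] at hlt
    exact lt_irrefl _ hlt
  · simp at hr

/-- the value of a facet of the relaxed face -/
noncomputable def ww (A : Fin m → Fin n → ℝ) (b : Fin m → ℝ) (c : Fin n → ℝ)
    (E ρ : Finset (Fin m)) (j : Fin m) : EReal :=
  ⨆ q : {q : Fin n → ℝ // (∀ i ∈ insert j E, A i ⬝ᵥ q = b i) ∧ ∀ i ∈ ρ, A i ⬝ᵥ q ≤ b i},
    ((c ⬝ᵥ q.1 : ℝ) : EReal)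

/-- the class of all combinatorial types -/
noncomputable def model (m n : ℕ) : Model (Fin m) {ω // ω ∈ types m n} n where
  inst ω := ⟨ω.1.2, NN ω.1.1⟩
  V ω B := ω.1.1 B
  val ω B := ((ω.2.choose_spec.choose_spec.choose ⬝ᵥ
    pt ω.2.choose ω.2.choose_spec.choose B : ℝ) : EReal)
  w ω E ρ j := ww ω.2.choose ω.2.choose_spec.choose ω.2.choose_spec.choose_spec.choose E ρ j
  card_V := by
    intro ω B hB
    obtain ⟨hA, hb, hω⟩ := ω.2.choose_spec.choose_spec.choose_spec
    rw [hω] at hB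
    obtain ⟨q, hq, rfl⟩ := hB
    exact hA q hq
  sub := by
    intro ω B hB
    obtain ⟨hA, hb, hω⟩ := ω.2.choose_spec.choose_spec.choose_spec
    rw [hω] at hB ⊢
    obtain ⟨q, hq, h⟩ := hB
    intro i hi
    simp only at hi
    rw [← h, SS_tight hq] at hi
    rw [← h]
    exact (mem_improv.1 hi).1
  next_V := by
    intro ω B r hB hr
    obtain ⟨hA, hb, hω⟩ := ω.2.choose_spec.choose_spec.choose_spec
    rw [hω] at hB hr ⊢
    exact (NN_spec (exists_next hr).2).1
  next_sub := by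
    intro ω B r hB hr
    obtain ⟨hA, hb, hω⟩ := ω.2.choose_spec.choose_spec.choose_spec
    rw [hω] at hB hr ⊢
    exact (NN_spec (exists_next hr).2).2.2
  next_lt := by
    intro ω B r hB hr
    obtain ⟨hA, hb, hω⟩ := ω.2.choose_spec.choose_spec.choose_spec
    set A := ω.2.choose
    set b := ω.2.choose_spec.choose
    set c := ω.2.choose_spec.choose_spec.choose
    have hω1 : ω.1.1 = VV A b := congrArg Prod.fst hω
    have hω2 : ω.1.2 = SS A b c := congrArg Prod.snd hω
    simp only at hr ⊢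
    rw [hω1] at hB ⊢
    rw [hω2] at hr
    obtain ⟨h1, h2, h3⟩ := NN_spec (exists_next hr).2
    obtain ⟨a1, a2⟩ := pt_spec hB
    obtain ⟨b1, b2⟩ := pt_spec h1
    rw [EReal.coe_lt_coe_iff]
    refine edge_lt a1 (hA _ a1) (r := r) ?_ b1.1 (by rw [a2, b2]; exact h2)
      (by rw [a2, b2]; exact h3)
    rw [← SS_tight a1, a2]
    exact hr
  le_w := by
    intro ω E ρ j B hB hE hρ hj hjE
    obtain ⟨hA, hb, hω⟩ := ω.2.choose_spec.choose_spec.choose_spec
    set A := ω.2.choose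
    set b := ω.2.choose_spec.choose
    set c := ω.2.choose_spec.choose_spec.choose
    have hω1 : ω.1.1 = VV A b := congrArg Prod.fst hω
    rw [hω1] at hB
    obtain ⟨a1, a2⟩ := pt_spec hB
    unfold ww
    refine le_iSup_of_le ⟨pt A b B, fun i hi => ?_, fun i _ => a1.1 i⟩ le_rfl
    apply mem_tight.1
    rw [a2]
    rcases mem_insert.1 hi with h | h
    · rw [h]; exact hj
    · exact hE h
  w_le := by
    intro ω E ρ j B hB hE hρ hj hjE hS
    obtain ⟨hA, hb, hω⟩ := ω.2.choose_spec.choose_spec.choose_spec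
    set A := ω.2.choose
    set b := ω.2.choose_spec.choose
    set c := ω.2.choose_spec.choose_spec.choose
    have hω1 : ω.1.1 = VV A b := congrArg Prod.fst hω
    have hω2 : ω.1.2 = SS A b c := congrArg Prod.snd hω
    simp only at hS
    rw [hω1] at hB
    rw [hω2] at hS
    obtain ⟨a1, a2⟩ := pt_spec hB
    unfold ww
    refine iSup_le fun q => ?_
    rw [EReal.coe_le_coe_iff]
    refine face_opt a1 hb (hA _ a1) (E := insert j E) ?_ q.1 q.2.1 fun i hi => ?_
    · rw [← SS_tight a1, a2]; exact hS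
    · rw [a2] at hi
      exact q.2.2 i (hρ hi)

/-! ### The rule -/

section rule

variable {R : Type} [DecidableEq R]

/-- the history: observations, the last one first -/
def hist (f : Inst R) (w : ℕ → Finset R) : ℕ → List (Obs R)
  | 0 => [f.ob (w 0)]
  | t + 1 => f.ob (w (t + 1)) :: hist f w t

/-- continue with the observation `o` -/
def adv : Str R → Obs R → Str R
  | stop, _ => stop
  | go _ k, o => k o

/-- the strategy after a history, if `t₀` is used at the start -/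
def state (t₀ : Obs R → Str R) : List (Obs R) → Str R
  | [] => stop
  | [p] => t₀ p
  | p :: q :: l => adv (state t₀ (q :: l)) p

/-- the rule of a strategy -/
def ruleOf (t₀ : Obs R → Str R) (i₀ : R) (l : List (Obs R)) : R :=
  match state t₀ l with
  | stop => i₀
  | go i _ => i

/-- the walk of a rule -/
def walkAux (f : Inst R) (rule : List (Obs R) → R) (B₀ : Finset R) :
    ℕ → Finset R × List (Obs R)
  | 0 => (B₀, [f.ob B₀])
  | t + 1 =>
    let p := walkAux f rule B₀ t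
    let u := f.N p.1 (rule p.2)
    (u, f.ob u :: p.2)

/-- the walk of a rule -/
def walk (f : Inst R) (rule : List (Obs R) → R) (B₀ : Finset R) (t : ℕ) : Finset R :=
  (walkAux f rule B₀ t).1

omit [DecidableEq R] in
lemma walkAux_eq (f : Inst R) (rule : List (Obs R) → R) (B₀ : Finset R) (t : ℕ) :
    (walkAux f rule B₀ t).2 = hist f (walk f rule B₀) t := by
  induction t with
  | zero => rfl
  | succ t ih =>
    simp only [walkAux, hist, walk]
    rw [ih]

omit [DecidableEq R] in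
lemma walk_succ (f : Inst R) (rule : List (Obs R) → R) (B₀ : Finset R) (t : ℕ) :
    walk f rule B₀ (t + 1) = f.N (walk f rule B₀ t) (rule (hist f (walk f rule B₀) t)) := by
  rw [← walkAux_eq]; rfl

omit [DecidableEq R] in
lemma state_cons (t₀ : Obs R → Str R) (p : Obs R) (l : List (Obs R))
    (hl : l ≠ []) : state t₀ (p :: l) = adv (state t₀ l) p := by
  cases l with
  | nil => exact absurd rfl hl
  | cons q l => rfl

omit [DecidableEq R] in
lemma hist_ne_nil (f : Inst R) (w : ℕ → Finset R) (t : ℕ) : hist f w t ≠ [] := by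
  cases t <;> simp [hist]

omit [DecidableEq R] in
/-- following the strategy -/
lemma follow (f : Inst R) (t₀ : Obs R → Str R) (i₀ : R) (B₀ : Finset R) (st : Str R) :
    ∀ t : ℕ, state t₀ (hist f (walk f (ruleOf t₀ i₀) B₀) t) = st →
      Safe ∅ st (f.S (walk f (ruleOf t₀ i₀) B₀ t)) →
      (∀ j < (play f st (walk f (ruleOf t₀ i₀) B₀ t)).length,
        ruleOf t₀ i₀ (hist f (walk f (ruleOf t₀ i₀) B₀) (t + j)) ∈
          f.S (walk f (ruleOf t₀ i₀) B₀ (t + j))) ∧
      walk f (ruleOf t₀ i₀) B₀ (t + (play f st (walk f (ruleOf t₀ i₀) B₀ t)).length) =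
        (lst (f.ob (walk f (ruleOf t₀ i₀) B₀ t))
          (play f st (walk f (ruleOf t₀ i₀) B₀ t))).1 := by
  induction st with
  | stop =>
    intro t _ _
    simp [play, lst, Inst.ob]
  | go i k ih =>
    intro t hst hleg
    set R' := ruleOf t₀ i₀ with hR
    set w := walk f R' B₀ with hw
    have hrule : R' (hist f w t) = i := by
      rw [hR]; unfold ruleOf; rw [hst]
    have hw1 : w (t + 1) = f.N (w t) i := by
      rw [hw, walk_succ, ← hw, hrule]
    have hst1 : state t₀ (hist f w (t + 1)) = k (f.ob (w (t + 1))) := by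
      simp only [hist]
      rw [state_cons _ _ _ (hist_ne_nil _ _ _), hst]
      rfl
    obtain ⟨hl1, -, hl2⟩ := hleg
    obtain ⟨a1, a2⟩ := ih (f.ob (w (t + 1))) (t + 1) hst1 (hl2 _)
    simp only [play, List.length_cons, lst]
    rw [← hw1]
    refine ⟨fun j hj => ?_, ?_⟩
    · rcases Nat.eq_zero_or_pos j with h0 | h0
      · subst h0
        rw [Nat.add_zero, hrule]
        exact hl1
      · obtain ⟨j', rfl⟩ : ∃ j', j = j' + 1 := ⟨j - 1, by omega⟩
        have := a1 j' (by omega)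
        rw [show t + (j' + 1) = t + 1 + j' by ring]
        exact this
    · rw [show t + ((play f (k (f.ob (w (t + 1)))) (w (t + 1))).length + 1) =
        t + 1 + (play f (k (f.ob (w (t + 1)))) (w (t + 1))).length by ring]
      exact a2

end rule

/-! ### Numerical estimates -/

lemma XX_le {Q Q' : ℝ} (hQ : 0 ≤ Q) (hQQ : Q ≤ Q') (h1 : 1 ≤ Q') (s : ℕ) :
    Q * XX Q s ≤ (3 * Q') ^ s := by
  induction s with
  | zero => simp [XX]
  | succ s ih =>
    have h2 : (1 : ℝ) ≤ (3 * Q') ^ s := one_le_pow₀ (by linarith)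
    have h3 : XX Q (s + 1) = 1 + 2 * (Q * XX Q s) := rfl
    have h4 : XX Q (s + 1) ≤ 3 * (3 * Q') ^ s := by rw [h3]; linarith
    calc Q * XX Q (s + 1) ≤ Q' * (3 * (3 * Q') ^ s) :=
          mul_le_mul hQQ h4 (XX_nonneg hQ _) (by linarith)
      _ = (3 * Q') ^ (s + 1) := by ring

lemma log_types (hm : 1 ≤ m) (hn : n ≤ m) (N : ℕ) (hN : N ≤ (types m n).ncard) :
    Real.log N ≤ 12 * m ^ 4 := by
  have hm0 : (1 : ℝ) ≤ m := by exact_mod_cast hm
  have h0 := (hN.trans (types_finite m n).2)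
  have hbase : 4 * (m ^ n * (m + n + 1)) * (2 * n + 1) + 2 ≤ 38 * m ^ (m + 2) := by
    have e1 : m ^ n ≤ m ^ m := Nat.pow_le_pow_right hm hn
    have e2 : m ^ n * (m + n + 1) ≤ m ^ m * (3 * m) := Nat.mul_le_mul e1 (by omega)
    have e3 : 4 * (m ^ n * (m + n + 1)) * (2 * n + 1) ≤ 4 * (m ^ m * (3 * m)) * (3 * m) :=
      Nat.mul_le_mul (Nat.mul_le_mul_left _ e2) (by omega)
    have e4 : 4 * (m ^ m * (3 * m)) * (3 * m) = 36 * m ^ (m + 2) := by ring
    have e5 : 1 ≤ m ^ (m + 2) := Nat.one_le_pow _ _ (by omega)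
    omega
  have hexp : m * n + (m + n) ≤ 3 * m ^ 2 := by nlinarith
  have h1 : N ≤ (38 * m ^ (m + 2)) ^ (3 * m ^ 2) := by
    refine h0.trans ((Nat.pow_le_pow_left hbase _).trans ?_)
    apply Nat.pow_le_pow_right _ hexp
    positivity
  rcases Nat.eq_zero_or_pos N with hz | hz
  · rw [hz]; simp
  have h2 : Real.log N ≤ Real.log (((38 * m ^ (m + 2)) ^ (3 * m ^ 2) : ℕ) : ℝ) :=
    Real.log_le_log (by exact_mod_cast hz) (by exact_mod_cast h1)
  push_cast at h2
  rw [Real.log_pow, Real.log_mul (by norm_num) (by positivity), Real.log_pow] at h2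
  have h3 : Real.log 38 ≤ 4 := by
    rw [Real.log_le_iff_le_exp (by norm_num)]
    have e1 : Real.exp 4 = Real.exp 1 ^ 4 := by
      rw [← Real.exp_nat_mul]; norm_num
    rw [e1]
    have := Real.exp_one_gt_d9
    have h4 : (2.7 : ℝ) ^ 4 ≤ Real.exp 1 ^ 4 := by
      apply pow_le_pow_left₀ (by norm_num)
      linarith
    norm_num at h4
    linarith
  have h4 : Real.log m ≤ m - 1 := Real.log_le_sub_one_of_pos (by linarith)
  have h5 : Real.log 38 + ((m + 2 : ℕ) : ℝ) * Real.log m ≤ 4 * m ^ 2 := by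
    have : ((m + 2 : ℕ) : ℝ) * Real.log m ≤ ((m + 2 : ℕ) : ℝ) * (m - 1) :=
      mul_le_mul_of_nonneg_left h4 (by positivity)
    push_cast at this ⊢
    nlinarith
  calc Real.log N ≤ ((3 * m ^ 2 : ℕ) : ℝ) * (Real.log 38 + ((m + 2 : ℕ) : ℝ) * Real.log m) := by
        push_cast at h2 ⊢
        exact h2
    _ ≤ ((3 * m ^ 2 : ℕ) : ℝ) * (4 * m ^ 2) := mul_le_mul_of_nonneg_left h5 (by positivity)
    _ = 12 * m ^ 4 := by push_cast; ring

/-- what the rule sees at the vertex `q`: the tight rows and the improving rows -/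
noncomputable def obs (A : Fin m → Fin n → ℝ) (b : Fin m → ℝ) (c : Fin n → ℝ)
    (q : Fin n → ℝ) : Finset (Fin m) × Finset (Fin m) := (tight A b q, improv A b c q)

/-- the list of the observations at `q t, …, q 0` -/
noncomputable def seen (A : Fin m → Fin n → ℝ) (b : Fin m → ℝ) (c : Fin n → ℝ)
    (q : ℕ → Fin n → ℝ) : ℕ → List (Finset (Fin m) × Finset (Fin m))
  | 0 => [obs A b c (q 0)]
  | t + 1 => obs A b c (q (t + 1)) :: seen A b c q t

theorem linear_programs (m n : ℕ) (hm : 1 ≤ m) :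
    ∃ rule : List (Finset (Fin m) × Finset (Fin m)) → Fin m,
      ∀ (A : Fin m → Fin n → ℝ) (b : Fin m → ℝ) (c : Fin n → ℝ), Nondeg A b →
        (∃ μ, ∀ p, Feas A b p → c ⬝ᵥ p ≤ μ) → ∀ q₀ : Fin n → ℝ, IsVertex A b q₀ →
        ∃ (T : ℕ) (q : ℕ → Fin n → ℝ), q 0 = q₀ ∧ (∀ t ≤ T, IsVertex A b (q t)) ∧
          (∀ t < T, c ⬝ᵥ q t < c ⬝ᵥ q (t + 1) ∧
            rule (seen A b c q t) ∈ improv A b c (q t) ∧
            (tight A b (q t)).erase (rule (seen A b c q t)) ⊆ tight A b (q (t + 1))) ∧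
          (∀ p, Feas A b p → c ⬝ᵥ p ≤ c ⬝ᵥ q T) ∧
          T ≤ (75 * m ^ 7) ^ (Nat.log 2 m + 1) := by
  classical
  by_cases hnm : n ≤ m
  swap
  · refine ⟨fun _ => ⟨0, hm⟩, fun A b c hA hb q₀ hq₀ => ?_⟩
    have h1 := hA q₀ hq₀
    have h2 := card_le_univ (tight A b q₀)
    rw [Fintype.card_fin] at h2
    omega
  set M := model m n with hM
  have : Finite {ω // ω ∈ types m n} := (types_finite m n).1
  have : Fintype {ω // ω ∈ types m n} := Fintype.ofFinite _
  set Λ : ℝ := 12 * m ^ 4 with hΛ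
  have hm0 : (1 : ℝ) ≤ m := by exact_mod_cast hm
  have hΛ0 : 0 ≤ Λ := by positivity
  set Q : ℝ := n + n ^ 2 * ((Fintype.card (Fin m) + 1 : ℕ) : ℝ) * Λ with hQ
  have hQ0 : 0 ≤ Q := by positivity
  have hQ' : Q ≤ 25 * m ^ 7 := by
    have hn0 : (n : ℝ) ≤ m := by exact_mod_cast hnm
    rw [hQ, hΛ, Fintype.card_fin]
    push_cast
    have e1 : (n : ℝ) ^ 2 ≤ m ^ 2 := by gcongr
    have e2 : (m : ℝ) + 1 ≤ 2 * m := by linarith
    have e3 : (n : ℝ) ^ 2 * (m + 1) ≤ m ^ 2 * (2 * m) := mul_le_mul e1 e2 (by positivity)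
      (by positivity)
    have e4 : (n : ℝ) ^ 2 * (m + 1) * (12 * m ^ 4) ≤ m ^ 2 * (2 * m) * (12 * m ^ 4) :=
      mul_le_mul_of_nonneg_right e3 (by positivity)
    have e5 : (m : ℝ) ≤ m ^ 7 := le_self_pow₀ hm0 (by norm_num)
    nlinarith
  set s := Nat.log 2 m + 1 with hs
  have hms : m < 2 ^ s := Nat.lt_pow_succ_log_self (by norm_num) m
  -- the class
  set K : Obs (Fin m) → Finset ({ω // ω ∈ types m n} × Finset (Fin m)) := fun o =>
    (univ.filter fun ω => M.V ω o.1 ∧ (M.inst ω).ob o.1 = o).image fun ω => (ω, univ) with hK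
  have hKcard : ∀ o, (K o).card ≤ (types m n).ncard := by
    intro o
    refine card_image_le.trans ((card_filter_le _ _).trans ?_)
    rw [card_univ, ← Nat.card_eq_fintype_card]
    exact le_of_eq rfl
  have h1 : ∀ o : Obs (Fin m), ∃ t, W M ∅ o (K o) t
      (cost (Fintype.card (Fin m) + 1) (XX Q s) n (K o).card) := by
    intro o
    refine exists_works M Λ hΛ0 s n (K o).card ∅ o (K o) le_rfl
      (log_types hm hnm _ (hKcard o)) (by simp) (empty_subset _) ?_ ?_
    · intro p hp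
      obtain ⟨ω, hω, rfl⟩ := mem_image.1 hp
      obtain ⟨a1, a2⟩ := (mem_filter.1 hω).2
      exact ⟨a1, a2, subset_univ _⟩
    · intro p hp
      obtain ⟨ω, hω, rfl⟩ := mem_image.1 hp
      simpa using hms
  choose t₀ ht₀ using h1
  refine ⟨ruleOf t₀ ⟨0, hm⟩, fun A b c hA hb q₀ hq₀ => ?_⟩
  set rule := ruleOf t₀ ⟨0, hm⟩ with hrule
  -- the type of this linear program
  set ω₀ : {ω // ω ∈ types m n} := ⟨(VV A b, SS A b c), A, b, c, hA, hb, rfl⟩ with hω₀
  set f := M.inst ω₀ with hf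
  have hfS : f.S = SS A b c := rfl
  have hfN : f.N = NN (VV A b) := rfl
  set B₀ := tight A b q₀ with hB₀
  have hV₀ : M.V ω₀ B₀ := ⟨q₀, hq₀, rfl⟩
  set w := walk f rule B₀ with hw
  have hw0 : w 0 = B₀ := rfl
  set o := f.ob B₀ with ho
  obtain ⟨s1, s2, s3⟩ := ht₀ o
  obtain ⟨c1, c2⟩ := follow f t₀ ⟨0, hm⟩ B₀ (t₀ o) 0 rfl s1
  rw [← hrule, ← hw, hw0] at c1 c2
  simp only [Nat.zero_add] at c1 c2
  set T := (play f (t₀ o) B₀).length with hT
  have hsafe : Safe ∅ (t₀ o) ((M.inst ω₀).S B₀) := s1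
  -- all states are vertices
  have hVw : ∀ t ≤ T, VV A b (w t) := by
    intro t
    induction t with
    | zero => intro _; exact hV₀
    | succ t ih =>
      intro ht
      have h2 := ih (by omega)
      have h3 := c1 t (by omega)
      have h4 := M.next_V ω₀ (w t) _ h2 h3
      have h5 : w (t + 1) = f.N (w t) (rule (hist f w t)) := by
        rw [hw, walk_succ]
      rw [h5]
      exact h4
  set q : ℕ → Fin n → ℝ := fun t => pt A b (w t) with hq
  have hqt : ∀ t ≤ T, IsVertex A b (q t) ∧ tight A b (q t) = w t := fun t ht =>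
    pt_spec (hVw t ht)
  have hobs : ∀ t ≤ T, obs A b c (q t) = f.ob (w t) := by
    intro t ht
    obtain ⟨a1, a2⟩ := hqt t ht
    unfold obs Inst.ob
    rw [hfS, ← a2, SS_tight a1]
  have hseen : ∀ t ≤ T, seen A b c q t = hist f w t := by
    intro t
    induction t with
    | zero => intro ht; simp only [seen, hist]; rw [hobs 0 ht]
    | succ t ih =>
      intro ht
      simp only [seen, hist]
      rw [hobs (t + 1) ht, ih (by omega)]
  refine ⟨T, q, ?_, fun t ht => (hqt t ht).1, fun t ht => ?_, ?_, ?_⟩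
  · show pt A b (w 0) = q₀
    rw [hw0, hB₀, pt_tight hq₀]
  · have h2 := c1 t ht
    have h5 : w (t + 1) = f.N (w t) (rule (hist f w t)) := by rw [hw, walk_succ]
    obtain ⟨a1, a2⟩ := hqt t ht.le
    obtain ⟨b1, b2⟩ := hqt (t + 1) ht
    rw [hseen t ht.le]
    have h6 : rule (hist f w t) ∈ improv A b c (q t) := by
      rw [← SS_tight a1, a2]; exact h2
    have h7 := NN_spec (exists_next h2).2
    have h8 : (tight A b (q t)).erase (rule (hist f w t)) ⊆ tight A b (q (t + 1)) := by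
      rw [a2, b2, h5]; exact h7.2.2
    refine ⟨edge_lt a1 (hA _ a1) h6 b1.1 ?_ h8, h6, h8⟩
    rw [a2, b2, h5]
    exact h7.2.1
  · obtain ⟨a1, a2⟩ := hqt T le_rfl
    intro p hp
    refine face_opt a1 hb (hA _ a1) (E := ∅) ?_ p (by simp) fun i _ => hp i
    have hmem : (ω₀, (univ : Finset (Fin m))) ∈ K o := by
      refine mem_image_of_mem _ (mem_filter.2 ⟨mem_univ _, hV₀, rfl⟩)
    have h2 := s3 (ω₀, univ) hmem fun o' _ => subset_univ _
    have h3 : lst o (play f (t₀ o) B₀) = f.ob (lst o (play f (t₀ o) B₀)).1 :=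
      lst_ob f (t₀ o) B₀
    have h4 : (lst o (play f (t₀ o) B₀)).2 = f.S (w T) := by
      rw [h3, c2]; rfl
    have h5 : (lst o (play f (t₀ o) B₀)).2 ⊆ ∅ := h2
    rw [h4, hfS] at h5
    rw [← SS_tight a1, a2]
    exact h5
  · have h2 := s2 ω₀ hV₀ rfl
    have h3 : (T : ℝ) ≤ cost (Fintype.card (Fin m) + 1) (XX Q s) n (K o).card
        (surv M (K o) (t₀ o) o.1 (play (M.inst ω₀) (t₀ o) o.1)).card := h2
    have h4 : cost (Fintype.card (Fin m) + 1) (XX Q s) n (K o).card
        (surv M (K o) (t₀ o) o.1 (play (M.inst ω₀) (t₀ o) o.1)).card ≤ Q * XX Q s := by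
      unfold cost
      have e1 : Real.log (K o).card ≤ Λ := log_types hm hnm _ (hKcard o)
      have e2 : 0 ≤ Real.log
        (surv M (K o) (t₀ o) o.1 (play (M.inst ω₀) (t₀ o) o.1)).card :=
        Real.log_natCast_nonneg _
      have e3 := XX_nonneg hQ0 s
      have e4 : (n : ℝ) ^ 2 * ((Fintype.card (Fin m) + 1 : ℕ) : ℝ) * XX Q s *
          (Real.log (K o).card - Real.log
            (surv M (K o) (t₀ o) o.1 (play (M.inst ω₀) (t₀ o) o.1)).card) ≤
          (n : ℝ) ^ 2 * ((Fintype.card (Fin m) + 1 : ℕ) : ℝ) * XX Q s * Λ :=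
        mul_le_mul_of_nonneg_left (by linarith) (by positivity)
      calc _ ≤ n * XX Q s + (n : ℝ) ^ 2 * ((Fintype.card (Fin m) + 1 : ℕ) : ℝ) * XX Q s * Λ := by
            linarith
        _ = Q * XX Q s := by rw [hQ]; ring
    have h5 : Q * XX Q s ≤ (3 * (25 * (m : ℝ) ^ 7)) ^ s := by
      apply XX_le hQ0 hQ'
      have : (1 : ℝ) ≤ m ^ 7 := one_le_pow₀ hm0
      linarith
    have h6 : (T : ℝ) ≤ (((75 * m ^ 7) ^ s : ℕ) : ℝ) := by
      push_cast
      have e : (3 * (25 * (m : ℝ) ^ 7)) = 75 * m ^ 7 := by ring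
      rw [e] at h5
      linarith
    exact_mod_cast h6

end Pool.Agent.N597.QP
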