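import Mathlib
set_option autoImplicit false

/-!
# Vertices and edges of nondegenerate polyhedra
-/

namespace Pool.Agent.N597.QP

open Finset Matrix

variable {m n : ℕ}

/-- `q` is feasible: `A q ≤ b` -/
def Feas (A : Fin m → Fin n → ℝ) (b : Fin m → ℝ) (q : Fin n → ℝ) : Prop :=
  ∀ i, A i ⬝ᵥ q ≤ b i

/-- the rows which are tight at `q` -/
noncomputable def tight (A : Fin m → Fin n → ℝ) (b : Fin m → ℝ) (q : Fin n → ℝ) :
    Finset (Fin m) := univ.filter fun i => A i ⬝ᵥ q = b i

/-- `q` is a vertex: a feasible point which is the only solution of its tight equations -/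
def IsVertex (A : Fin m → Fin n → ℝ) (b : Fin m → ℝ) (q : Fin n → ℝ) : Prop :=
  Feas A b q ∧ ∀ q', (∀ i ∈ tight A b q, A i ⬝ᵥ q' = b i) → q' = q

/-- every vertex has exactly `n` tight rows -/
def Nondeg (A : Fin m → Fin n → ℝ) (b : Fin m → ℝ) : Prop :=
  ∀ q, IsVertex A b q → (tight A b q).card = n

/-- the rows of the vertex `q` which can be left along an improving edge -/
noncomputable def improv (A : Fin m → Fin n → ℝ) (b : Fin m → ℝ) (c : Fin n → ℝ)
    (q : Fin n → ℝ) : Finset (Fin m) := by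
  classical
  exact (tight A b q).filter fun r =>
    ∃ q', IsVertex A b q' ∧ c ⬝ᵥ q < c ⬝ᵥ q' ∧ (tight A b q).erase r ⊆ tight A b q'

variable {A : Fin m → Fin n → ℝ} {b : Fin m → ℝ} {c : Fin n → ℝ} {q : Fin n → ℝ}

lemma mem_tight {i : Fin m} : i ∈ tight A b q ↔ A i ⬝ᵥ q = b i := by simp [tight]

lemma mem_improv {r : Fin m} : r ∈ improv A b c q ↔ r ∈ tight A b q ∧
    ∃ q', IsVertex A b q' ∧ c ⬝ᵥ q < c ⬝ᵥ q' ∧ (tight A b q).erase r ⊆ tight A b q' := by
  classical
  unfold improv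
  rw [mem_filter]

/-- the tight rows as a square matrix -/
noncomputable def rowMat (A : Fin m → Fin n → ℝ) (e : Fin n → Fin m) :
    Matrix (Fin n) (Fin n) ℝ := Matrix.of fun i j => A (e i) j

/-- a numbering of a set with `n` elements -/
noncomputable def num (B : Finset (Fin m)) (h : B.card = n) : Fin n → Fin m :=
  B.orderEmbOfFin h

lemma range_num (B : Finset (Fin m)) (h : B.card = n) (i : Fin m) :
    i ∈ B ↔ ∃ k, num B h k = i := by
  have := B.range_orderEmbOfFin h
  rw [← mem_coe, ← this]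
  rfl

lemma num_mem (B : Finset (Fin m)) (h : B.card = n) (k : Fin n) : num B h k ∈ B :=
  B.orderEmbOfFin_mem h k

lemma num_inj (B : Finset (Fin m)) (h : B.card = n) : Function.Injective (num B h) :=
  (B.orderEmbOfFin h).injective

lemma IsVertex.det_ne (hq : IsVertex A b q) (h : (tight A b q).card = n) :
    (rowMat A (num (tight A b q) h)).det ≠ 0 := by
  intro h0
  obtain ⟨v, hv, hv0⟩ := Matrix.exists_mulVec_eq_zero_iff.2 h0
  have h1 := hq.2 (q + v) fun i hi => by
    obtain ⟨k, rfl⟩ := (range_num _ h i).1 hi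
    have e : A (num (tight A b q) h k) ⬝ᵥ v = 0 := congrFun hv0 k
    rw [dotProduct_add, e, add_zero]
    exact mem_tight.1 hi
  apply hv
  simpa using h1

/-- multipliers -/
lemma IsVertex.exists_mult (hq : IsVertex A b q) (h : (tight A b q).card = n) (c : Fin n → ℝ) :
    ∃ y : Fin n → ℝ, c = ∑ k, y k • rowMat A (num (tight A b q) h) k := by
  have hu : IsUnit (rowMat A (num (tight A b q) h)).det :=
    isUnit_iff_ne_zero.2 (hq.det_ne h)
  refine ⟨c ᵥ* (rowMat A (num (tight A b q) h))⁻¹, ?_⟩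
  have e : (c ᵥ* (rowMat A (num (tight A b q) h))⁻¹) ᵥ* rowMat A (num (tight A b q) h) = c := by
    rw [vecMul_vecMul, nonsing_inv_mul _ hu, vecMul_one]
  conv_lhs => rw [← e]
  rw [vecMul_eq_sum]

lemma dot_mult {e : Fin n → Fin m} {y : Fin n → ℝ} (hy : c = ∑ k, y k • rowMat A e k)
    (d : Fin n → ℝ) : c ⬝ᵥ d = ∑ k, y k * (A (e k) ⬝ᵥ d) := by
  rw [hy, sum_dotProduct]
  refine sum_congr rfl fun k _ => ?_
  rw [smul_dotProduct, smul_eq_mul]
  rfl

/-- the increase along an edge -/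
lemma edge_eq {h : (tight A b q).card = n} {y : Fin n → ℝ}
    (hy : c = ∑ k, y k • rowMat A (num (tight A b q) h) k) {q' : Fin n → ℝ} {i : Fin n}
    (hsub : (tight A b q).erase (num (tight A b q) h i) ⊆ tight A b q') :
    c ⬝ᵥ q' - c ⬝ᵥ q = y i * (A (num (tight A b q) h i) ⬝ᵥ q' - b (num (tight A b q) h i)) := by
  have e1 : ∀ k, A (num (tight A b q) h k) ⬝ᵥ (q' - q) =
      A (num (tight A b q) h k) ⬝ᵥ q' - b (num (tight A b q) h k) := by
    intro k
    rw [dotProduct_sub, mem_tight.1 (num_mem _ h k)]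
  rw [← dotProduct_sub, dot_mult hy, sum_eq_single i]
  · rw [e1]
  · intro k _ hk
    rw [e1, mem_tight.1 (hsub (mem_erase.2 ⟨fun hh => hk (num_inj _ h hh), num_mem _ h k⟩)),
      sub_self, mul_zero]
  · intro hi
    exact absurd (mem_univ i) hi

/-- improving rows have negative multipliers -/
lemma improv_neg (_hq : IsVertex A b q) {h : (tight A b q).card = n} {y : Fin n → ℝ}
    (hy : c = ∑ k, y k • rowMat A (num (tight A b q) h) k) {i : Fin n}
    (hi : num (tight A b q) h i ∈ improv A b c q) : y i < 0 := by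
  obtain ⟨_, q', hq', hlt, hsub⟩ := mem_improv.1 hi
  have e := edge_eq hy hsub
  have h2 := hq'.1 (num (tight A b q) h i)
  by_contra hcon
  have := mul_nonneg (not_lt.1 hcon) (sub_nonneg.2 h2)
  nlinarith

/-- the objective function increases on every edge which leaves an improving row -/
lemma edge_lt (hq : IsVertex A b q) (h : (tight A b q).card = n) {r : Fin m}
    (hr : r ∈ improv A b c q) {q' : Fin n → ℝ} (hq' : Feas A b q')
    (hne : tight A b q' ≠ tight A b q)
    (hsub : (tight A b q).erase r ⊆ tight A b q') : c ⬝ᵥ q < c ⬝ᵥ q' := by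
  obtain ⟨y, hy⟩ := hq.exists_mult h c
  obtain ⟨i, rfl⟩ := (range_num _ h r).1 (mem_improv.1 hr).1
  have h1 := improv_neg hq hy hr
  have e := edge_eq hy hsub
  have h2 := hq' (num (tight A b q) h i)
  have h3 : A (num (tight A b q) h i) ⬝ᵥ q' ≠ b (num (tight A b q) h i) := by
    intro h4
    apply hne
    have : q' = q := hq.2 q' fun k hk => by
      by_cases hki : k = num (tight A b q) h i
      · rw [hki]; exact h4
      · exact mem_tight.1 (hsub (mem_erase.2 ⟨hki, hk⟩))
    rw [this]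
  have h4 : A (num (tight A b q) h i) ⬝ᵥ q' - b (num (tight A b q) h i) < 0 := by
    have := lt_of_le_of_ne h2 h3
    linarith
  have := mul_pos_of_neg_of_neg h1 h4
  linarith

/-- **Ratio test.** If the objective function is bounded above, then a row with negative multiplier
can be left along an edge which ends in a vertex. -/
lemma neg_improv (hq : IsVertex A b q) (hb : ∃ μ, ∀ p, Feas A b p → c ⬝ᵥ p ≤ μ)
    {h : (tight A b q).card = n} {y : Fin n → ℝ}
    (hy : c = ∑ k, y k • rowMat A (num (tight A b q) h) k) {i : Fin n} (hi : y i < 0) :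
    num (tight A b q) h i ∈ improv A b c q := by
  classical
  set e := num (tight A b q) h with he
  set Mt := rowMat A e with hMt
  have hu : IsUnit Mt.det := isUnit_iff_ne_zero.2 (hq.det_ne h)
  -- the direction
  set d : Fin n → ℝ := Mt⁻¹ *ᵥ (Pi.single i (-1)) with hd
  have hMd : Mt *ᵥ d = Pi.single i (-1) := by
    rw [hd, mulVec_mulVec, mul_nonsing_inv _ hu, one_mulVec]
  have hAd : ∀ k, A (e k) ⬝ᵥ d = (Pi.single i (-1) : Fin n → ℝ) k := fun k => congrFun hMd k
  have hAi : A (e i) ⬝ᵥ d = -1 := by rw [hAd]; simp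
  have hAk : ∀ k, k ≠ i → A (e k) ⬝ᵥ d = 0 := fun k hk => by rw [hAd]; simp [hk]
  have hcd : 0 < c ⬝ᵥ d := by
    rw [dot_mult hy, sum_eq_single i]
    · rw [hAi]; linarith
    · intro k _ hk
      rw [hAk k hk, mul_zero]
    · intro hh; exact absurd (mem_univ i) hh
  have htB : ∀ r ∈ tight A b q, A r ⬝ᵥ d ≤ 0 := by
    intro r hr
    obtain ⟨k, rfl⟩ := (range_num _ h r).1 hr
    by_cases hk : k = i
    · subst hk
      have : A (num (tight A b q) h k) ⬝ᵥ d = -1 := hAi
      rw [this]; norm_num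
    · exact (hAk k hk).le
  -- the rows which block the ray
  set Z := univ.filter fun r => 0 < A r ⬝ᵥ d with hZ
  have hZne : Z.Nonempty := by
    rw [nonempty_iff_ne_empty]
    intro h0
    obtain ⟨μ, hμ⟩ := hb
    have hray : ∀ t : ℝ, 0 ≤ t → Feas A b (q + t • d) := by
      intro t ht r
      have : ¬ 0 < A r ⬝ᵥ d := by
        intro hr
        have : r ∈ Z := mem_filter.2 ⟨mem_univ _, hr⟩
        rw [h0] at this
        simp at this
      rw [dotProduct_add, dotProduct_smul, smul_eq_mul]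
      have h1 := hq.1 r
      have h2 : t * (A r ⬝ᵥ d) ≤ 0 := mul_nonpos_of_nonneg_of_nonpos ht (not_lt.1 this)
      linarith
    have h1 := hμ _ (hray ((|μ - c ⬝ᵥ q| + 1) / (c ⬝ᵥ d)) (by positivity))
    rw [dotProduct_add, dotProduct_smul, smul_eq_mul, div_mul_cancel₀ _ hcd.ne'] at h1
    have := le_abs_self (μ - c ⬝ᵥ q)
    linarith
  obtain ⟨s, hs, hmin⟩ := exists_min_image Z (fun r => (b r - A r ⬝ᵥ q) / (A r ⬝ᵥ d)) hZne
  have hsd : 0 < A s ⬝ᵥ d := (mem_filter.1 hs).2
  have hsB : s ∉ tight A b q := fun hsB => absurd (htB s hsB) (not_le.2 hsd)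
  have hslack : 0 < b s - A s ⬝ᵥ q := by
    have h1 := hq.1 s
    have h2 : A s ⬝ᵥ q ≠ b s := fun hh => hsB (mem_tight.2 hh)
    have := lt_of_le_of_ne h1 h2
    linarith
  set t := (b s - A s ⬝ᵥ q) / (A s ⬝ᵥ d) with ht
  have ht0 : 0 < t := div_pos hslack hsd
  set q' := q + t • d with hq'
  have hdot : ∀ r, A r ⬝ᵥ q' = A r ⬝ᵥ q + t * (A r ⬝ᵥ d) := by
    intro r; rw [hq', dotProduct_add, dotProduct_smul, smul_eq_mul]
  have hfeas : Feas A b q' := by
    intro r
    rw [hdot]
    by_cases hr : 0 < A r ⬝ᵥ d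
    · have h1 := hmin r (mem_filter.2 ⟨mem_univ _, hr⟩)
      rw [le_div_iff₀ hr] at h1
      linarith
    · have := mul_nonpos_of_nonneg_of_nonpos ht0.le (not_lt.1 hr)
      have h1 := hq.1 r
      linarith
  have hsub : (tight A b q).erase (e i) ⊆ tight A b q' := by
    intro r hr
    obtain ⟨hr1, hr2⟩ := mem_erase.1 hr
    obtain ⟨k, rfl⟩ := (range_num _ h r).1 hr2
    have hk : k ≠ i := fun hh => hr1 (by rw [hh])
    rw [mem_tight, hdot]
    have : A (num (tight A b q) h k) ⬝ᵥ d = 0 := hAk k hk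
    rw [this, mul_zero, add_zero]
    exact mem_tight.1 hr2
  have hst : s ∈ tight A b q' := by
    rw [mem_tight, hdot, ht, div_mul_cancel₀ _ hsd.ne']
    ring
  refine mem_improv.2 ⟨num_mem _ h i, q', ⟨hfeas, fun p hp => ?_⟩, ?_, hsub⟩
  · -- uniqueness
    set f := p - q' with hf
    have hf0 : ∀ r ∈ tight A b q', A r ⬝ᵥ f = 0 := by
      intro r hr
      rw [hf, dotProduct_sub, hp r hr, mem_tight.1 hr, sub_self]
    have h1 : q + (f + (A (e i) ⬝ᵥ f) • d) = q := by
      apply hq.2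
      intro r hr
      obtain ⟨k, rfl⟩ := (range_num _ h r).1 hr
      rw [dotProduct_add, dotProduct_add, dotProduct_smul, smul_eq_mul, mem_tight.1 hr]
      by_cases hk : k = i
      · subst hk
        have : A (num (tight A b q) h k) ⬝ᵥ d = -1 := hAi
        rw [this]
        ring
      · have e1 : A (num (tight A b q) h k) ⬝ᵥ d = 0 := hAk k hk
        have e2 : A (num (tight A b q) h k) ⬝ᵥ f = 0 := hf0 _ (hsub (mem_erase.2
          ⟨fun hh => hk (num_inj _ h hh), hr⟩))
        rw [e1, e2]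
        ring
    have h2 : f + (A (e i) ⬝ᵥ f) • d = 0 := by simpa using h1
    have h3 := hf0 s hst
    have h4 : A s ⬝ᵥ (f + (A (e i) ⬝ᵥ f) • d) = 0 := by rw [h2, dotProduct_zero]
    rw [dotProduct_add, dotProduct_smul, smul_eq_mul, h3, zero_add] at h4
    have h5 : A (e i) ⬝ᵥ f = 0 := by
      rcases mul_eq_zero.1 h4 with h | h
      · exact h
      · exact absurd h hsd.ne'
    rw [h5, zero_smul, add_zero] at h2
    exact sub_eq_zero.1 h2
  · have : c ⬝ᵥ q' = c ⬝ᵥ q + t * (c ⬝ᵥ d) := by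
      rw [hq', dotProduct_add, dotProduct_smul, smul_eq_mul]
    rw [this]
    have := mul_pos ht0 hcd
    linarith

/-- a vertex without improving rows outside `E` maximizes over the relaxed face -/
lemma face_opt (hq : IsVertex A b q) (hb : ∃ μ, ∀ p, Feas A b p → c ⬝ᵥ p ≤ μ)
    (h : (tight A b q).card = n) {E : Finset (Fin m)} (hS : improv A b c q ⊆ E)
    (p : Fin n → ℝ) (hp1 : ∀ i ∈ E, A i ⬝ᵥ p = b i)
    (hp2 : ∀ i ∈ tight A b q, A i ⬝ᵥ p ≤ b i) : c ⬝ᵥ p ≤ c ⬝ᵥ q := by
  obtain ⟨y, hy⟩ := hq.exists_mult h c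
  have h2 : c ⬝ᵥ (p - q) ≤ 0 := by
    rw [dot_mult hy]
    apply sum_nonpos
    intro k _
    rw [dotProduct_sub, mem_tight.1 (num_mem _ h k)]
    by_cases hk : num (tight A b q) h k ∈ E
    · rw [hp1 _ hk, sub_self, mul_zero]
    · apply mul_nonpos_of_nonneg_of_nonpos
      · by_contra hcon
        exact hk (hS (neg_improv hq hb hy (not_le.1 hcon)))
      · have := hp2 _ (num_mem _ h k)
        linarith
  rw [dotProduct_sub] at h2
  linarith

end Pool.Agent.N597.QP
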