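import Pool.Agent.N597.QP.Model
set_option autoImplicit false

/-!
# The recursion
-/

namespace Pool.Agent.N597.QP

open Finset Str

variable {R Ω : Type} [DecidableEq R] {n : ℕ} (M : Model R Ω n)

lemma W.mono {E : Finset R} {o : Obs R} {K : Finset (Ω × Finset R)} {t : Str R} {c c' : ℕ → ℝ}
    (h : W M E o K t c) (hc : ∀ x ≤ K.card, c x ≤ c' x) : W M E o K t c' :=
  ⟨h.1, fun ω hV ho => (h.2.1 ω hV ho).trans (hc _ (card_le_card (surv_subset M _ _ _ _))), h.2.2⟩

/-- the upper half of the facets -/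
noncomputable def top (E : Finset R) (s : ℕ) (p : Ω × Finset R) : Finset R := by
  classical
  exact (p.2 \ E).filter fun i =>
    ((p.2 \ E).filter fun j => M.w p.1 E p.2 i < M.w p.1 E p.2 j).card < 2 ^ s

lemma mem_top {E : Finset R} {s : ℕ} {p : Ω × Finset R} {i : R} :
    i ∈ top M E s p ↔ i ∈ p.2 \ E ∧
      ((p.2 \ E).filter fun j => M.w p.1 E p.2 i < M.w p.1 E p.2 j).card < 2 ^ s := by
  classical
  unfold top
  rw [mem_filter]

lemma top_compl {E : Finset R} {s : ℕ} {p : Ω × Finset R} (h : (p.2 \ E).card < 2 ^ (s + 1)) :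
    ((p.2 \ top M E s p) \ E).card < 2 ^ s := by
  classical
  set C := (p.2 \ top M E s p) \ E with hC
  rcases C.eq_empty_or_nonempty with h0 | h0
  · rw [h0, card_empty]; positivity
  obtain ⟨i, hi, hmax⟩ := exists_max_image C (fun i => M.w p.1 E p.2 i) h0
  have hiC : i ∈ p.2 \ E ∧ i ∉ top M E s p := by
    rw [hC, mem_sdiff, mem_sdiff] at hi
    exact ⟨mem_sdiff.2 ⟨hi.1.1, hi.2⟩, hi.1.2⟩
  have h1 : 2 ^ s ≤ ((p.2 \ E).filter fun j => M.w p.1 E p.2 i < M.w p.1 E p.2 j).card := by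
    by_contra hcon
    exact hiC.2 ((mem_top M).2 ⟨hiC.1, not_le.1 hcon⟩)
  have h2 : ((p.2 \ E).filter fun j => M.w p.1 E p.2 i < M.w p.1 E p.2 j) ∪ C ⊆ p.2 \ E := by
    intro j hj
    rcases mem_union.1 hj with hj | hj
    · exact (mem_filter.1 hj).1
    · rw [hC, mem_sdiff, mem_sdiff] at hj
      exact mem_sdiff.2 ⟨hj.1.1, hj.2⟩
  have h3 : Disjoint ((p.2 \ E).filter fun j => M.w p.1 E p.2 i < M.w p.1 E p.2 j) C := by
    rw [disjoint_left]
    intro j hj1 hj2
    exact absurd (hmax j hj2) (not_le.2 (mem_filter.1 hj1).2)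
  have h4 := card_le_card h2
  rw [card_union_of_disjoint h3] at h4
  rw [pow_succ] at h
  omega

/-- a single step -/
def one (j : R) : Str R := go j fun _ => stop

lemma log_gap {a b m : ℕ} (hm : 1 ≤ m) (hb : 1 ≤ b) (h : m * b + a ≤ m * a) :
    (1 : ℝ) ≤ m * (Real.log a - Real.log b) := by
  have ha : 1 ≤ a := by
    by_contra hcon
    have : a = 0 := by omega
    subst this
    have : 1 ≤ m * b := Nat.one_le_iff_ne_zero.2 (by positivity)
    omega
  have hm0 : (0 : ℝ) < m := by exact_mod_cast hm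
  have ha0 : (0 : ℝ) < a := by exact_mod_cast ha
  have hb0 : (0 : ℝ) < b := by exact_mod_cast hb
  have h1 : Real.log b - Real.log a = Real.log (b / a) := by
    rw [Real.log_div hb0.ne' ha0.ne']
  have h2 : Real.log (b / a) ≤ b / a - 1 := Real.log_le_sub_one_of_pos (by positivity)
  have h3 : (b : ℝ) / a ≤ 1 - 1 / m := by
    rw [div_le_iff₀ ha0]
    have : (m : ℝ) * b + a ≤ m * a := by exact_mod_cast h
    have h4 : (1 - 1 / (m : ℝ)) * a = (m * a - a) / m := by
      field_simp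
    rw [h4, le_div_iff₀ hm0]
    linarith
  have h5 : Real.log a - Real.log b ≥ 1 / m := by linarith
  calc (1 : ℝ) = m * (1 / m) := by field_simp
    _ ≤ m * (Real.log a - Real.log b) := by
        apply mul_le_mul_of_nonneg_left h5 hm0.le

lemma log_mono {a b : ℕ} (h : a ≤ b) : Real.log a ≤ Real.log b := by
  rcases Nat.eq_zero_or_pos a with h0 | h0
  · subst h0
    simp only [Nat.cast_zero, Real.log_zero]
    exact Real.log_natCast_nonneg _
  · exact Real.log_le_log (by exact_mod_cast h0) (by exact_mod_cast h)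

/-- the costs of a node -/
noncomputable def cost (D : ℕ) (X : ℝ) (d : ℕ) (k x : ℕ) : ℝ :=
  d * X + d ^ 2 * D * X * (Real.log k - Real.log x)

lemma cost_nonneg {D : ℕ} {X : ℝ} (hX : 0 ≤ X) (d : ℕ) {k x : ℕ} (h : x ≤ k) :
    0 ≤ cost D X d k x := by
  unfold cost
  have := log_mono h
  have h1 : 0 ≤ Real.log k - Real.log x := by linarith
  positivity

/-- The second and third phase. -/
lemma phase23 {D d s : ℕ} {X C : ℝ} (hD : 1 ≤ D) (hC : 0 ≤ C) (hX : X = 1 + 2 * C)
    {E : Finset R} (K : Finset (Ω × Finset R)) (hEd : E.card + (d + 1) = n)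
    (hcap : ∀ (o : Obs R) (K' : Finset (Ω × Finset R)), K'.card ≤ K.card → E ⊆ o.1 →
      Cons M o K' → (∀ p ∈ K', (p.2 \ E).card < 2 ^ s) → ∃ t, W M E o K' t fun _ => C)
    (hd : ∀ (E' : Finset R) (o : Obs R) (K' : Finset (Ω × Finset R)), K'.card ≤ K.card →
      E'.card + d = n → E' ⊆ o.1 → Cons M o K' → (∀ p ∈ K', (p.2 \ E').card < 2 ^ (s + 1)) →
      ∃ t, W M E' o K' t (cost D X d K'.card))
    (hrec : ∀ (o : Obs R) (K' : Finset (Ω × Finset R)), K'.Nonempty →
      D * K'.card + K.card ≤ D * K.card → E ⊆ o.1 →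
      Cons M o K' → (∀ p ∈ K', (p.2 \ E).card < 2 ^ (s + 1)) →
      ∃ t, W M E o K' t (cost D X (d + 1) K'.card))
    (hsize : ∀ p ∈ K, (p.2 \ E).card < 2 ^ (s + 1))
    {j : R} (hjE : j ∉ E) (G : Finset (Ω × Finset R)) (hG : G ⊆ K)
    (hGj : ∀ p ∈ G, j ∈ top M E s p) (hcard : K.card ≤ D * G.card)
    (o : Obs R) (K' : Finset (Ω × Finset R)) (hK' : K' ⊆ K) (hE : E ⊆ o.1) (hcons : Cons M o K')
    (hj : j ∈ o.1) :
    ∃ t, W M E o K' t fun x => cost D X (d + 1) K.card x - C := by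
  classical
  have hX0 : 0 ≤ X := by rw [hX]; positivity
  have hD0 : (1 : ℝ) ≤ D := by exact_mod_cast hD
  -- phase 2
  have hE'o : insert j E ⊆ o.1 := insert_subset hj hE
  obtain ⟨τ₂, hτ₂⟩ := hd (insert j E) o K' (card_le_card hK')
    (by rw [card_insert_of_notMem hjE]; omega) hE'o hcons (by
      intro p hp
      refine lt_of_le_of_lt (card_le_card ?_) (hsize p (hK' hp))
      exact sdiff_subset_sdiff (Subset.refl _) (subset_insert _ _))
  have hsafe₂ : Safe E τ₂ o.2 := safe_mono (subset_insert _ _) hτ₂.1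
  refine comp_works M E o K' τ₂ _ hE hcons hsafe₂ fun l₂ => ?_
  set o₂ := lst o l₂ with ho₂
  set K₂ := surv M K' τ₂ o.1 l₂ with hK₂
  have hK₂' : K₂ ⊆ K' := surv_subset M _ _ _ _
  have hlen₂ : ∀ ω, M.V ω o.1 → (M.inst ω).ob o.1 = o → play (M.inst ω) τ₂ o.1 = l₂ →
      (l₂.length : ℝ) ≤ cost D X d K'.card K₂.card := by
    intro ω hV ho hl
    have := hτ₂.2.1 ω hV ho
    rw [hl] at this
    exact this
  -- the estimate for the costs after phase 2
  have hlog₂ : Real.log K₂.card ≤ Real.log K'.card := log_mono (card_le_card hK₂')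
  have hlog' : Real.log K'.card ≤ Real.log K.card := log_mono (card_le_card hK')
  have key : ∀ x : ℕ, x ≤ K₂.card → cost D X d K'.card K₂.card + 1 + C ≤
      cost D X (d + 1) K.card x - C := by
    intro x hx
    have h1 := log_mono hx
    unfold cost
    push_cast
    have h2 : (d : ℝ) ^ 2 * D * X * (Real.log K'.card - Real.log K₂.card) ≤
        (d : ℝ) ^ 2 * D * X * (Real.log K.card - Real.log x) := by
      apply mul_le_mul_of_nonneg_left (by linarith) (by positivity)
    have h3 : (d : ℝ) ^ 2 * D * X * (Real.log K.card - Real.log x) ≤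
        ((d : ℝ) + 1) ^ 2 * D * X * (Real.log K.card - Real.log x) := by
      apply mul_le_mul_of_nonneg_right _ (by linarith)
      have : (d : ℝ) ^ 2 ≤ (d + 1) ^ 2 := by nlinarith [(Nat.cast_nonneg d : (0 : ℝ) ≤ d)]
      gcongr
    nlinarith
  have hsafe1 : ∀ l, E ⊆ (lst o l).1 ∨ surv M K' τ₂ o.1 l = ∅ := by
    intro l
    rcases (surv M K' τ₂ o.1 l).eq_empty_or_nonempty with h | h
    · exact Or.inr h
    · exact Or.inl (hcons.face M hE hsafe₂ l h)
  by_cases hstop : K₂ = ∅ ∨ o₂.2 ⊆ E ∨ j ∉ o₂.2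
  · refine ⟨stop, fun _ => 0, stop_works M E _ _ _ (fun _ _ => le_rfl) ?_, ?_⟩
    · rintro ⟨p, hp⟩
      rcases hstop with h | h | h
      · rw [h] at hp; simp at hp
      · exact h
      · obtain ⟨a1, a2, a3⟩ := (mem_surv M).1 hp
        have := hτ₂.2.2 p a1 (by rw [a2]; exact a3)
        rw [a2] at this
        intro i hi
        rcases mem_insert.1 (this hi) with h' | h'
        · subst h'; exact absurd hi h
        · exact h'
    · intro ω hV ho hl x hx
      have := key x hx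
      have := hlen₂ ω hV ho hl
      linarith
  push Not at hstop
  obtain ⟨hne₂, hnt₂, hj₂⟩ := hstop
  have hne₂' : K₂.Nonempty := hne₂
  have hE₂ : E ⊆ o₂.1 := by
    rcases hsafe1 l₂ with h | h
    · exact h
    · rw [← hK₂] at h; rw [h] at hne₂; simp at hne₂
  have hcons₂ : Cons M o₂ K₂ := hcons.surv M hE hsafe₂ l₂
  -- facts about phase 2
  have hS₂ : o₂.2 ⊆ insert j E := by
    obtain ⟨p, hp⟩ := hne₂'
    obtain ⟨a1, a2, a3⟩ := (mem_surv M).1 hp
    have := hτ₂.2.2 p a1 (by rw [a2]; exact a3)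
    rw [a2] at this
    exact this
  have hsafe₃ : Safe E (one j) o₂.2 := ⟨hj₂, hjE, fun _ => trivial⟩
  obtain ⟨g, hg⟩ : ∃ g, W M E o₂ K₂ g fun x =>
      cost D X (d + 1) K.card x - C - cost D X d K'.card K₂.card := by
    refine comp_works M E o₂ K₂ (one j) _ hE₂ hcons₂ hsafe₃ fun l₃ => ?_
    set o₃ := lst o₂ l₃ with ho₃
    set K₃ := surv M K₂ (one j) o₂.1 l₃ with hK₃
    have hK₃' : K₃ ⊆ K₂ := surv_subset M _ _ _ _
    have hlen₃ : ∀ ω, play (M.inst ω) (one j) o₂.1 = l₃ → l₃.length = 1 := by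
      intro ω h
      rw [← h]; simp [one, play]
    by_cases hstop : K₃ = ∅ ∨ o₃.2 ⊆ E
    · refine ⟨stop, fun _ => 0, stop_works M E _ _ _ (fun _ _ => le_rfl) ?_, ?_⟩
      · rintro ⟨p, hp⟩
        rcases hstop with h | h
        · rw [h] at hp; simp at hp
        · exact h
      · intro ω hV ho hl x hx
        have := key x (hx.trans (card_le_card hK₃'))
        rw [hlen₃ ω hl]
        push_cast
        linarith
    push Not at hstop
    obtain ⟨hne₃, hnt₃⟩ := hstop
    have hne₃' : K₃.Nonempty := hne₃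
    have hE₃ : E ⊆ o₃.1 := hcons₂.face M hE₂ hsafe₃ l₃ hne₃'
    have hcons₃ : Cons M o₃ K₃ := hcons₂.surv M hE₂ hsafe₃ l₃
    -- values
    have hval : ∀ p ∈ K₃, M.w p.1 E p.2 j < M.val p.1 o₃.1 := by
      intro p hp
      obtain ⟨a1, a2, a3⟩ := (mem_surv M).1 hp
      obtain ⟨b1, b2, b3⟩ := hcons₂ p a1
      have hSp : (M.inst p.1).S o₂.1 = o₂.2 := congrArg Prod.snd b2
      have hsub := M.sub p.1 o₂.1 b1
      rw [hSp] at hsub
      have h1 := M.w_le p.1 E p.2 j o₂.1 b1 hE₂ b3 (hsub hj₂) hjE (by rw [hSp]; exact hS₂)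
      have h2 := M.next_lt p.1 o₂.1 j b1 (by rw [hSp]; exact hj₂)
      have h3 : o₃.1 = (M.inst p.1).N o₂.1 j := by
        rw [ho₃, ← a2]
        simp [one, play, lst, Inst.ob]
      rw [h3]
      exact lt_of_le_of_lt h1 h2
    -- phase 3
    set F : Ω × Finset R → Ω × Finset R := fun p =>
      (p.1, E ∪ (p.2 \ E).filter fun i => M.w p.1 E p.2 j < M.w p.1 E p.2 i) with hF
    set K₃' := (K₃.filter fun p => j ∈ top M E s p).image F with hK₃''
    have hinF : ∀ p ∈ K₃, ∀ B : Finset R, M.V p.1 B → E ⊆ B → B ⊆ p.2 →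
        M.val p.1 o₃.1 ≤ M.val p.1 B → B ⊆ (F p).2 := by
      intro p hp B hV hEB hBp hle i hi
      by_cases hiE : i ∈ E
      · exact mem_union_left _ hiE
      · refine mem_union_right _ (mem_filter.2 ⟨mem_sdiff.2 ⟨hBp hi, hiE⟩, ?_⟩)
        have h1 := M.le_w p.1 E p.2 i B hV hEB hBp hi hiE
        exact lt_of_lt_of_le (hval p hp) (hle.trans h1)
    obtain ⟨τ₃, hτ₃⟩ := hcap o₃ K₃' (by
        refine (card_image_le.trans (card_le_card (filter_subset _ _))).trans ?_
        exact card_le_card ((hK₃'.trans hK₂').trans hK')) hE₃ (by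
        intro q hq
        obtain ⟨p, hp, rfl⟩ := mem_image.1 hq
        obtain ⟨hp1, hp2⟩ := mem_filter.1 hp
        obtain ⟨b1, b2, b3⟩ := hcons₃ p hp1
        exact ⟨b1, b2, hinF p hp1 o₃.1 b1 hE₃ b3 le_rfl⟩) (by
        intro q hq
        obtain ⟨p, hp, rfl⟩ := mem_image.1 hq
        obtain ⟨hp1, hp2⟩ := mem_filter.1 hp
        refine lt_of_le_of_lt (card_le_card ?_) ((mem_top M).1 hp2).2
        intro i hi
        rw [mem_sdiff] at hi
        rcases mem_union.1 hi.1 with h | h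
        · exact absurd h hi.2
        · exact h)
    obtain ⟨g, hg⟩ : ∃ g, W M E o₃ K₃ g fun x =>
        cost D X (d + 1) K.card x - C - cost D X d K'.card K₂.card - 1 := by
      refine comp_works M E o₃ K₃ τ₃ _ hE₃ hcons₃ hτ₃.1 fun l₄ => ?_
      set o₄ := lst o₃ l₄ with ho₄
      set K₄ := surv M K₃ τ₃ o₃.1 l₄ with hK₄
      have hK₄' : K₄ ⊆ K₃ := surv_subset M _ _ _ _
      have hlen₄ : ∀ ω, M.V ω o₃.1 → (M.inst ω).ob o₃.1 = o₃ →
          play (M.inst ω) τ₃ o₃.1 = l₄ → (l₄.length : ℝ) ≤ C := by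
        intro ω hV ho hl
        have := hτ₃.2.1 ω hV ho
        rw [hl] at this
        exact this
      by_cases hstop : K₄ = ∅ ∨ o₄.2 ⊆ E
      · refine ⟨stop, fun _ => 0, stop_works M E _ _ _ (fun _ _ => le_rfl) ?_, ?_⟩
        · rintro ⟨p, hp⟩
          rcases hstop with h | h
          · rw [h] at hp; simp at hp
          · exact h
        · intro ω hV ho hl x hx
          have := key x (hx.trans (card_le_card (hK₄'.trans hK₃')))
          have := hlen₄ ω hV ho hl
          linarith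
      push Not at hstop
      obtain ⟨hne₄, hnt₄⟩ := hstop
      have hne₄' : K₄.Nonempty := hne₄
      have hcons₄ : Cons M o₄ K₄ := hcons₃.surv M hE₃ hτ₃.1 l₄
      have hE₄ : E ⊆ o₄.1 := hcons₃.face M hE₃ hτ₃.1 l₄ hne₄'
      -- elimination
      have helim : K₄ ⊆ K \ G := by
        intro p hp
        obtain ⟨a1, a2, a3⟩ := (mem_surv M).1 hp
        rw [mem_sdiff]
        refine ⟨hK' (hK₂' (hK₃' a1)), fun hpG => hnt₄ ?_⟩
        have hpF : F p ∈ K₃' := mem_image_of_mem F (mem_filter.2 ⟨a1, hGj p hpG⟩)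
        have h1 := hτ₃.2.2 (F p) hpF (by
          intro o' ho'
          have hsf : Safe E τ₃ ((M.inst p.1).S o₃.1) := by
            have : (M.inst p.1).S o₃.1 = o₃.2 := congrArg Prod.snd (hcons₃ p a1).2.1
            rw [this]; exact hτ₃.1
          obtain ⟨c1, c2, c3⟩ := valid_play M (hcons₃ p a1).1 hE₃ hsf o' ho'
          exact hinF p a1 o'.1 c1 c2 (a3 o' (by rw [← a2]; exact ho')) c3.le)
        have h2 : play (M.inst (F p).1) τ₃ o₃.1 = l₄ := a2
        rw [h2] at h1
        exact h1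
      have hcardK₄ : D * K₄.card + K.card ≤ D * K.card := by
        have h1 := card_le_card helim
        rw [card_sdiff_of_subset hG] at h1
        have h2 := card_le_card hG
        have h3 : K₄.card + G.card ≤ K.card := by omega
        calc D * K₄.card + K.card ≤ D * K₄.card + D * G.card := by omega
          _ = D * (K₄.card + G.card) := by ring
          _ ≤ D * K.card := Nat.mul_le_mul_left _ h3
      obtain ⟨t₄, ht₄⟩ := hrec o₄ K₄ hne₄' hcardK₄ hE₄ hcons₄
        (fun p hp => hsize p (hK' (hK₂' (hK₃' (hK₄' hp)))))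
      refine ⟨t₄, _, ht₄, ?_⟩
      intro ω hV ho hl x hx
      have h1 := hlen₄ ω hV ho hl
      have h2 := log_gap hD (card_pos.2 hne₄') hcardK₄
      have h3 : Real.log K₄.card ≤ Real.log K₂.card :=
        log_mono (card_le_card (hK₄'.trans hK₃'))
      set y := Real.log K.card - Real.log K₄.card with hy
      set z := Real.log K'.card - Real.log K₂.card with hz
      have hzy : z ≤ y := by rw [hy, hz]; linarith
      have hz0 : 0 ≤ z := by rw [hz]; linarith
      unfold cost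
      push_cast
      rw [← hz]
      have e1 : ((d : ℝ) + 1) ^ 2 * D * X * (Real.log K.card - Real.log x) =
          ((d : ℝ) + 1) ^ 2 * D * X * (Real.log K₄.card - Real.log x) +
          ((d : ℝ) + 1) ^ 2 * X * (D * y) := by rw [hy]; ring
      have e2 : (d : ℝ) ^ 2 * D * X * z ≤ (d : ℝ) ^ 2 * X * (D * y) := by
        have : (d : ℝ) ^ 2 * D * X * z = (d : ℝ) ^ 2 * X * (D * z) := by ring
        rw [this]
        gcongr
      have e3 : ((d : ℝ) + 1) * X ≤ (2 * d + 1) * X * (D * y) := by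
        have hd0 : (0 : ℝ) ≤ d := Nat.cast_nonneg d
        calc ((d : ℝ) + 1) * X ≤ (2 * d + 1) * X * 1 := by nlinarith
          _ ≤ (2 * d + 1) * X * (D * y) := by
              apply mul_le_mul_of_nonneg_left h2 (by positivity)
      have e4 : ((d : ℝ) + 1) ^ 2 * X * (D * y) =
          (d : ℝ) ^ 2 * X * (D * y) + (2 * d + 1) * X * (D * y) := by ring
      rw [e1]
      linarith
    refine ⟨g, _, hg, ?_⟩
    intro ω hV ho hl x hx
    rw [hlen₃ ω hl]
    push_cast
    linarith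
  refine ⟨g, _, hg, ?_⟩
  intro ω hV ho hl x hx
  have := hlen₂ ω hV ho hl
  linarith

end Pool.Agent.N597.QP
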