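import Pool.Agent.N597.QP.Str
set_option autoImplicit false

/-!
# The class of instances, and composition of strategies with costs
-/

namespace Pool.Agent.N597.QP

open Finset Str

variable {R Ω : Type} [DecidableEq R]

/-- A class of instances: `V` vertices, `val` their values, `w E ρ j` the supremum of the objective
function on the facet `j` of the face `E` of the polyhedron in which only the constraints in `ρ` are
kept. -/
structure Model (R Ω : Type) [DecidableEq R] (n : ℕ) where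
  inst : Ω → Inst R
  V : Ω → Finset R → Prop
  val : Ω → Finset R → EReal
  w : Ω → Finset R → Finset R → R → EReal
  card_V : ∀ ω B, V ω B → B.card = n
  sub : ∀ ω B, V ω B → (inst ω).S B ⊆ B
  next_V : ∀ ω B r, V ω B → r ∈ (inst ω).S B → V ω ((inst ω).N B r)
  next_sub : ∀ ω B r, V ω B → r ∈ (inst ω).S B → B.erase r ⊆ (inst ω).N B r
  next_lt : ∀ ω B r, V ω B → r ∈ (inst ω).S B → val ω B < val ω ((inst ω).N B r)
  le_w : ∀ ω E ρ j B, V ω B → E ⊆ B → B ⊆ ρ → j ∈ B → j ∉ E → val ω B ≤ w ω E ρ j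
  w_le : ∀ ω E ρ j B, V ω B → E ⊆ B → B ⊆ ρ → j ∈ B → j ∉ E → (inst ω).S B ⊆ insert j E →
    w ω E ρ j ≤ val ω B

variable {n : ℕ} (M : Model R Ω n)

lemma valid_play {ω : Ω} {E B : Finset R} {t : Str R} (hV : M.V ω B) (hE : E ⊆ B)
    (hs : Safe E t ((M.inst ω).S B)) : ∀ o ∈ play (M.inst ω) t B,
      M.V ω o.1 ∧ E ⊆ o.1 ∧ M.val ω B < M.val ω o.1 := by
  induction t generalizing B with
  | stop => simp [play]
  | go r k ih =>
    obtain ⟨h1, h2, h3⟩ := hs
    have hV' := M.next_V ω B r hV h1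
    have hE' : E ⊆ (M.inst ω).N B r := fun i hi => M.next_sub ω B r hV h1
      (mem_erase.2 ⟨fun h => h2 (h ▸ hi), hE hi⟩)
    have hlt := M.next_lt ω B r hV h1
    intro o ho
    simp only [play, List.mem_cons] at ho
    rcases ho with rfl | ho
    · exact ⟨hV', hE', hlt⟩
    · obtain ⟨a1, a2, a3⟩ := ih _ hV' hE' (h3 _) o ho
      exact ⟨a1, a2, hlt.trans a3⟩

lemma valid_lst {ω : Ω} {E : Finset R} {o : Obs R} {t : Str R} (hV : M.V ω o.1) (hE : E ⊆ o.1)
    (ho : (M.inst ω).ob o.1 = o)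
    (hs : Safe E t o.2) : M.V ω (lst o (play (M.inst ω) t o.1)).1 ∧
      E ⊆ (lst o (play (M.inst ω) t o.1)).1 ∧
      (M.inst ω).ob (lst o (play (M.inst ω) t o.1)).1 = lst o (play (M.inst ω) t o.1) := by
  have hs' : Safe E t ((M.inst ω).S o.1) := by
    have : (M.inst ω).S o.1 = o.2 := congrArg Prod.snd ho
    rw [this]; exact hs
  have h1 := lst_mem o (play (M.inst ω) t o.1)
  have h2 := lst_ob (M.inst ω) t o.1
  rw [ho] at h2
  rw [List.mem_cons] at h1
  rcases h1 with h1 | h1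
  · rw [h1]; exact ⟨hV, hE, ho⟩
  · obtain ⟨a1, a2, -⟩ := valid_play M hV hE hs' _ h1
    exact ⟨a1, a2, h2.symm⟩

/-- the members of the class `K` which are consistent with the transcript `l` of `t`, and whose
relaxation has not been left -/
noncomputable def surv (K : Finset (Ω × Finset R)) (t : Str R) (B : Finset R)
    (l : List (Obs R)) : Finset (Ω × Finset R) := by
  classical
  exact K.filter fun p => play (M.inst p.1) t B = l ∧ ∀ o ∈ l, o.1 ⊆ p.2

lemma mem_surv {K : Finset (Ω × Finset R)} {t : Str R} {B : Finset R} {l : List (Obs R)}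
    {p : Ω × Finset R} : p ∈ surv M K t B l ↔
      p ∈ K ∧ play (M.inst p.1) t B = l ∧ ∀ o ∈ l, o.1 ⊆ p.2 := by
  classical
  simp [surv]

lemma surv_subset (K : Finset (Ω × Finset R)) (t : Str R) (B : Finset R) (l : List (Obs R)) :
    surv M K t B l ⊆ K := by
  intro p hp
  exact ((mem_surv M).1 hp).1

/-- `t` works at the observation `o` for the face `E` and the class `K`, with the costs `c` -/
def W (E : Finset R) (o : Obs R) (K : Finset (Ω × Finset R)) (t : Str R) (c : ℕ → ℝ) : Prop :=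
  Safe E t o.2 ∧
  (∀ ω, M.V ω o.1 → (M.inst ω).ob o.1 = o → ((play (M.inst ω) t o.1).length : ℝ) ≤
    c (surv M K t o.1 (play (M.inst ω) t o.1)).card) ∧
  (∀ p ∈ K, (∀ o' ∈ play (M.inst p.1) t o.1, o'.1 ⊆ p.2) →
    (lst o (play (M.inst p.1) t o.1)).2 ⊆ E)

/-- the members of the class agree with the observation -/
def Cons (o : Obs R) (K : Finset (Ω × Finset R)) : Prop :=
  ∀ p ∈ K, M.V p.1 o.1 ∧ (M.inst p.1).ob o.1 = o ∧ o.1 ⊆ p.2

lemma Cons.surv {E : Finset R} {o : Obs R} {K : Finset (Ω × Finset R)} {t : Str R}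
    (hK : Cons M o K) (hE : E ⊆ o.1) (hs : Safe E t o.2) (l : List (Obs R)) :
    Cons M (lst o l) (surv M K t o.1 l) := by
  intro p hp
  obtain ⟨h1, h2, h3⟩ := (mem_surv M).1 hp
  obtain ⟨a1, a2, a3⟩ := hK p h1
  obtain ⟨b1, b2, b3⟩ := valid_lst M a1 hE a2 hs
  rw [h2] at b1 b2 b3
  refine ⟨b1, b3, ?_⟩
  have := lst_mem o l
  rw [List.mem_cons] at this
  rcases this with h | h
  · rw [h]; exact a3
  · exact h3 _ h

lemma Cons.face {E : Finset R} {o : Obs R} {K : Finset (Ω × Finset R)} {t : Str R}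
    (hK : Cons M o K) (hE : E ⊆ o.1) (hs : Safe E t o.2) (l : List (Obs R))
    (hne : (Pool.Agent.N597.QP.surv M K t o.1 l).Nonempty) : E ⊆ (lst o l).1 := by
  obtain ⟨p, hp⟩ := hne
  obtain ⟨h1, h2, h3⟩ := (mem_surv M).1 hp
  obtain ⟨a1, a2, a3⟩ := hK p h1
  obtain ⟨b1, b2, b3⟩ := valid_lst M a1 hE a2 hs
  rw [h2] at b2
  exact b2

lemma surv_comp (K : Finset (Ω × Finset R)) (t : Str R) (g : List (Obs R) → Str R) (o : Obs R)
    (hK : Cons M o K) (ω : Ω) (ho : (M.inst ω).ob o.1 = o) :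
    surv M K (comp t g) o.1 (play (M.inst ω) (comp t g) o.1) =
      surv M (surv M K t o.1 (play (M.inst ω) t o.1)) (g (play (M.inst ω) t o.1))
        (lst o (play (M.inst ω) t o.1)).1
        (play (M.inst ω) (g (play (M.inst ω) t o.1)) (lst o (play (M.inst ω) t o.1)).1) := by
  ext p
  rw [mem_surv, mem_surv, mem_surv]
  have e1 := play_comp (M.inst ω) t g o.1
  rw [ho] at e1
  constructor
  · rintro ⟨h1, h2, h3⟩
    have h4 := play_comp_eq _ _ _ _ _ h2
    have e2 := play_comp (M.inst p.1) t g o.1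
    rw [(hK p h1).2.1, h4] at e2
    have h5 : play (M.inst p.1) (g (play (M.inst ω) t o.1)) (lst o (play (M.inst ω) t o.1)).1 =
        play (M.inst ω) (g (play (M.inst ω) t o.1)) (lst o (play (M.inst ω) t o.1)).1 := by
      rw [e1, e2] at h2
      exact List.append_cancel_left h2
    rw [e1] at h3
    exact ⟨⟨h1, h4, fun o' ho' => h3 o' (List.mem_append_left _ ho')⟩, h5,
      fun o' ho' => h3 o' (List.mem_append_right _ ho')⟩
  · rintro ⟨⟨h1, h2, h3⟩, h4, h5⟩
    refine ⟨h1, ?_, ?_⟩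
    · rw [e1, play_comp (M.inst p.1) t g o.1, (hK p h1).2.1, h2, h4]
    · rw [e1]
      intro o' ho'
      rcases List.mem_append.1 ho' with h | h
      · exact h3 _ h
      · exact h5 _ h

/-- **Composition with costs.** -/
lemma comp_works (E : Finset R) (o : Obs R) (K : Finset (Ω × Finset R)) (τ : Str R) (c : ℕ → ℝ)
    (hE : E ⊆ o.1) (hK : Cons M o K) (hs : Safe E τ o.2)
    (h : ∀ l, ∃ (g : Str R) (c' : ℕ → ℝ), W M E (lst o l) (surv M K τ o.1 l) g c' ∧
      ∀ ω, M.V ω o.1 → (M.inst ω).ob o.1 = o → play (M.inst ω) τ o.1 = l →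
        ∀ x ≤ (surv M K τ o.1 l).card, (l.length : ℝ) + c' x ≤ c x) :
    ∃ t, W M E o K t c := by
  choose g c' h1 h2 using h
  refine ⟨comp τ g, safe_comp E τ g o hs fun l => (h1 l).1, fun ω hV ho => ?_, fun p hp hvis => ?_⟩
  · set l := play (M.inst ω) τ o.1 with hl
    have e1 := play_comp (M.inst ω) τ g o.1
    rw [ho, ← hl] at e1
    obtain ⟨b1, b2, b3⟩ := valid_lst M hV hE ho hs
    rw [← hl] at b1 b2 b3
    have h3 := (h1 l).2.1 ω b1 b3
    have h4 := surv_comp M K τ g o hK ω ho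
    rw [← hl] at h4
    rw [h4, e1, List.length_append]
    push_cast
    have h5 := h2 l ω hV ho rfl _ (card_le_card (surv_subset M (surv M K τ o.1 l) (g l)
      (lst o l).1 (play (M.inst ω) (g l) (lst o l).1)))
    linarith
  · set l := play (M.inst p.1) τ o.1 with hl
    have e1 := play_comp (M.inst p.1) τ g o.1
    rw [(hK p hp).2.1, ← hl] at e1
    rw [e1] at hvis ⊢
    rw [lst_append]
    refine (h1 l).2.2 p ((mem_surv M).2 ⟨hp, hl.symm, fun o' ho' =>
      hvis o' (List.mem_append_left _ ho')⟩) fun o' ho' => hvis o' (List.mem_append_right _ ho')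

/-- stopping -/
lemma stop_works (E : Finset R) (o : Obs R) (K : Finset (Ω × Finset R)) (c : ℕ → ℝ)
    (hc : ∀ x ≤ K.card, 0 ≤ c x) (h : K.Nonempty → o.2 ⊆ E) : W M E o K Str.stop c := by
  refine ⟨trivial, fun ω _ _ => ?_, fun p hp _ => ?_⟩
  · simp only [play, List.length_nil, Nat.cast_zero]
    exact hc _ (card_le_card (surv_subset M _ _ _ _))
  · simp only [play, lst]
    exact h ⟨p, hp⟩

end Pool.Agent.N597.QP
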