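import Pool.Agent.N597.QP.Main
set_option autoImplicit false

/-!
# The recursion: main induction
-/

namespace Pool.Agent.N597.QP

open Finset Str

variable {R Ω : Type} [DecidableEq R] {n : ℕ} (M : Model R Ω n)

/-- the cost factors -/
noncomputable def XX (Q : ℝ) : ℕ → ℝ
  | 0 => 0
  | s + 1 => 1 + 2 * (Q * XX Q s)

lemma XX_nonneg {Q : ℝ} (hQ : 0 ≤ Q) (s : ℕ) : 0 ≤ XX Q s := by
  induction s with
  | zero => exact le_rfl
  | succ s ih => unfold XX; positivity

/-- pigeonhole -/
lemma exists_popular [Fintype R] (K : Finset (Ω × Finset R)) (H : Ω × Finset R → Option R) :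
    ∃ τ : Option R, K.card ≤ (Fintype.card R + 1) * (K.filter fun p => H p = τ).card := by
  classical
  by_contra hcon
  push Not at hcon
  have h1 : K.card = ∑ τ : Option R, (K.filter fun p => H p = τ).card :=
    card_eq_sum_card_fiberwise fun _ _ => mem_univ _
  have h2 : (Fintype.card R + 1) * K.card =
      ∑ τ : Option R, (Fintype.card R + 1) * (K.filter fun p => H p = τ).card := by
    rw [← mul_sum, ← h1]
  have h3 : ∑ τ : Option R, (Fintype.card R + 1) * (K.filter fun p => H p = τ).card <
      ∑ _τ : Option R, K.card := sum_lt_sum_of_nonempty univ_nonempty fun τ _ => hcon τ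
  rw [← h2, sum_const, card_univ, Fintype.card_option, smul_eq_mul] at h3
  exact lt_irrefl _ h3

/-- the first phase -/
def cut (t : Str R) (B : Finset R) : Option R → Str R
  | none => t
  | some j => trunc j t B

theorem exists_works [Fintype R] (Λ : ℝ) (hΛ : 0 ≤ Λ) :
    ∀ (s d N : ℕ) (E : Finset R) (o : Obs R) (K : Finset (Ω × Finset R)), K.card ≤ N →
      Real.log K.card ≤ Λ → E.card + d = n → E ⊆ o.1 → Cons M o K →
      (∀ p ∈ K, (p.2 \ E).card < 2 ^ s) →
      ∃ t, W M E o K t (cost (Fintype.card R + 1)
        (XX (n + n ^ 2 * ((Fintype.card R + 1 : ℕ) : ℝ) * Λ) s) d K.card) := by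
  classical
  set D := Fintype.card R + 1 with hD
  set Q : ℝ := n + n ^ 2 * (D : ℝ) * Λ with hQ
  have hQ0 : 0 ≤ Q := by rw [hQ]; positivity
  have hD1 : 1 ≤ D := by omega
  intro s
  induction s with
  | zero =>
    intro d N E o K hN hlog hEd hE hcons hsize
    refine ⟨stop, stop_works M E o K _ (fun x hx => ?_) ?_⟩
    · exact cost_nonneg (XX_nonneg hQ0 0) d hx
    · rintro ⟨p, hp⟩
      have h1 := hsize p hp
      rw [pow_zero, Nat.lt_one_iff, card_eq_zero, sdiff_eq_empty_iff_subset] at h1
      obtain ⟨a1, a2, a3⟩ := hcons p hp
      have h2 := M.sub p.1 o.1 a1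
      have h3 : (M.inst p.1).S o.1 = o.2 := congrArg Prod.snd a2
      rw [h3] at h2
      exact (h2.trans a3).trans h1
  | succ s ihs =>
    -- the capped version for `s`
    set C := Q * XX Q s with hC
    have hC0 : 0 ≤ C := mul_nonneg hQ0 (XX_nonneg hQ0 s)
    have hX : XX Q (s + 1) = 1 + 2 * C := rfl
    have hcapAll : ∀ (d : ℕ), d ≤ n → ∀ (E : Finset R) (o : Obs R) (K : Finset (Ω × Finset R)),
        Real.log K.card ≤ Λ → E.card + d = n → E ⊆ o.1 → Cons M o K →
        (∀ p ∈ K, (p.2 \ E).card < 2 ^ s) → ∃ t, W M E o K t fun _ => C := by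
      intro d hdn E o K hlog hEd hE hcons hsize
      obtain ⟨t, ht⟩ := ihs d K.card E o K le_rfl hlog hEd hE hcons hsize
      refine ⟨t, ht.mono M fun x hx => ?_⟩
      unfold cost
      have hx0 : 0 ≤ Real.log x := Real.log_natCast_nonneg x
      have hXs := XX_nonneg hQ0 s
      have hd : (d : ℝ) ≤ n := by exact_mod_cast hdn
      have hd0 : (0 : ℝ) ≤ d := Nat.cast_nonneg d
      have h1 : (d : ℝ) ^ 2 * D * XX Q s * (Real.log K.card - Real.log x) ≤
          (n : ℝ) ^ 2 * D * XX Q s * Λ := by
        have h2 : (d : ℝ) ^ 2 * D * XX Q s ≤ (n : ℝ) ^ 2 * D * XX Q s := by gcongr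
        calc (d : ℝ) ^ 2 * D * XX Q s * (Real.log K.card - Real.log x)
            ≤ (d : ℝ) ^ 2 * D * XX Q s * Λ := by
              apply mul_le_mul_of_nonneg_left (by linarith) (by positivity)
          _ ≤ _ := mul_le_mul_of_nonneg_right h2 hΛ
      have h3 : (d : ℝ) * XX Q s ≤ n * XX Q s := mul_le_mul_of_nonneg_right hd hXs
      calc (d : ℝ) * XX Q s + (d : ℝ) ^ 2 * D * XX Q s * (Real.log K.card - Real.log x)
          ≤ n * XX Q s + (n : ℝ) ^ 2 * D * XX Q s * Λ := add_le_add h3 h1
        _ = C := by rw [hC, hQ]; ring
    intro d
    induction d with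
    | zero =>
      intro N E o K hN hlog hEd hE hcons hsize
      refine ⟨stop, stop_works M E o K _ (fun x hx => ?_) ?_⟩
      · exact cost_nonneg (XX_nonneg hQ0 _) 0 hx
      · rintro ⟨p, hp⟩
        obtain ⟨a1, a2, a3⟩ := hcons p hp
        have h2 := M.sub p.1 o.1 a1
        have h3 : (M.inst p.1).S o.1 = o.2 := congrArg Prod.snd a2
        rw [h3] at h2
        have h4 : E = o.1 := eq_of_subset_of_card_le hE (by rw [M.card_V _ _ a1]; omega)
        rw [h4]; exact h2
    | succ d ihd =>
      intro N
      induction N with
      | zero =>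
        intro E o K hN hlog hEd hE hcons hsize
        refine ⟨stop, stop_works M E o K _ (fun x hx => ?_) ?_⟩
        · exact cost_nonneg (XX_nonneg hQ0 _) _ hx
        · rintro hne
          have := card_pos.2 hne
          omega
      | succ N ihN =>
        intro E o K hN hlog hEd hE hcons hsize
        by_cases hstop : K = ∅ ∨ o.2 ⊆ E
        · refine ⟨stop, stop_works M E o K _ (fun x hx => ?_) ?_⟩
          · exact cost_nonneg (XX_nonneg hQ0 _) _ hx
          · rintro hne
            rcases hstop with h | h
            · rw [h] at hne; simp at hne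
            · exact h
        push Not at hstop
        obtain ⟨hne, hnt⟩ := hstop
        have hKpos : 0 < K.card := card_pos.2 hne
        have hlogle : ∀ K' : Finset (Ω × Finset R), K'.card ≤ K.card → Real.log K'.card ≤ Λ :=
          fun K' h => (log_mono h).trans hlog
        -- phase 1
        obtain ⟨t₁, ht₁⟩ := hcapAll (d + 1) (by omega) E o
          ((K.filter fun p => Disjoint o.1 (top M E s p)).image
            fun p => (p.1, p.2 \ top M E s p))
          (hlogle _ (card_image_le.trans (card_le_card (filter_subset _ _)))) hEd hE (by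
            intro q hq
            obtain ⟨p, hp, rfl⟩ := mem_image.1 hq
            obtain ⟨hp1, hp2⟩ := mem_filter.1 hp
            obtain ⟨b1, b2, b3⟩ := hcons p hp1
            exact ⟨b1, b2, fun i hi => mem_sdiff.2 ⟨b3 hi, disjoint_left.1 hp2 hi⟩⟩) (by
            intro q hq
            obtain ⟨p, hp, rfl⟩ := mem_image.1 hq
            exact top_compl M (hsize p (mem_filter.1 hp).1))
        -- the facet which is met
        set H : Ω × Finset R → Option R := fun p =>
          if h : ∃ j ∈ top M E s p, ∃ o' ∈ o :: play (M.inst p.1) t₁ o.1, j ∈ o'.1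
            then some h.choose else none with hH
        obtain ⟨τ, hτ⟩ := exists_popular K H
        rw [← hD] at hτ
        set G := K.filter fun p => H p = τ with hG
        -- the first part of the strategy
        obtain ⟨τ₁, hτ₁⟩ : ∃ τ₁ : Str R, τ₁ = cut t₁ o.1 τ := ⟨_, rfl⟩
        have hsafe : Safe E τ₁ o.2 := by
          rw [hτ₁]
          cases τ with
          | none => exact ht₁.1
          | some j => exact safe_trunc E j t₁ o.1 o.2 ht₁.1
        have hlen : ∀ ω, M.V ω o.1 → (M.inst ω).ob o.1 = o →
            ((play (M.inst ω) τ₁ o.1).length : ℝ) ≤ C := by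
          intro ω hV ho
          have h1 := ht₁.2.1 ω hV ho
          have h2 : (play (M.inst ω) τ₁ o.1).length ≤ (play (M.inst ω) t₁ o.1).length := by
            rw [hτ₁]
            cases τ with
            | none => exact le_rfl
            | some j => exact (trunc_prefix (M.inst ω) j t₁ o.1).length_le
          have h3 : ((play (M.inst ω) τ₁ o.1).length : ℝ) ≤ (play (M.inst ω) t₁ o.1).length := by
            exact_mod_cast h2
          exact h3.trans h1
        have hXC : XX Q (s + 1) = 1 + 2 * C := rfl
        have hX0 : 0 ≤ XX Q (s + 1) := XX_nonneg hQ0 _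
        have hX1 : C ≤ XX Q (s + 1) := by rw [hXC]; linarith
        -- recursion for smaller classes
        have hrec : ∀ (o : Obs R) (K' : Finset (Ω × Finset R)), K'.Nonempty →
            D * K'.card + K.card ≤ D * K.card → E ⊆ o.1 →
            Cons M o K' → (∀ p ∈ K', (p.2 \ E).card < 2 ^ (s + 1)) →
            ∃ t, W M E o K' t (cost D (XX Q (s + 1)) (d + 1) K'.card) := by
          intro o' K' hne' hc hE' hcons' hsize'
          have hlt : K'.card < K.card := by
            by_contra hcon
            have := Nat.mul_le_mul_left D (not_lt.1 hcon)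
            omega
          exact ihN E o' K' (by omega) (hlogle K' hlt.le) hEd hE' hcons' hsize'
        refine comp_works M E o K τ₁ _ hE hcons hsafe fun l => ?_
        set o₁ := lst o l with ho₁
        set K₁ := surv M K τ₁ o.1 l with hK₁
        have hK₁' : K₁ ⊆ K := surv_subset M _ _ _ _
        by_cases hstop₁ : K₁ = ∅ ∨ o₁.2 ⊆ E
        · refine ⟨stop, fun _ => 0, stop_works M E _ _ _ (fun _ _ => le_rfl) ?_, ?_⟩
          · rintro ⟨p, hp⟩
            rcases hstop₁ with h | h
            · rw [h] at hp; simp at hp
            · exact h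
          · intro ω hV ho hl x hx
            have h1 := hlen ω hV ho
            rw [hl] at h1
            have h2 := log_mono (hx.trans (card_le_card hK₁'))
            unfold cost
            push_cast
            have h3 : 0 ≤ ((d : ℝ) + 1) ^ 2 * D * XX Q (s + 1) *
                (Real.log K.card - Real.log x) := by
              apply mul_nonneg (by positivity); linarith
            have h4 : XX Q (s + 1) ≤ ((d : ℝ) + 1) * XX Q (s + 1) := by
              nlinarith [(Nat.cast_nonneg d : (0 : ℝ) ≤ d)]
            linarith
        push Not at hstop₁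
        obtain ⟨hne₁, hnt₁⟩ := hstop₁
        have hcons₁ : Cons M o₁ K₁ := hcons.surv M hE hsafe l
        have hE₁ : E ⊆ o₁.1 := hcons.face M hE hsafe l hne₁
        -- a step of the recursion if the popular members have been eliminated
        have hfinish : K₁ ⊆ K \ G → ∃ (g : Str R) (c' : ℕ → ℝ), W M E o₁ K₁ g c' ∧
            ∀ ω, M.V ω o.1 → (M.inst ω).ob o.1 = o → play (M.inst ω) τ₁ o.1 = l →
              ∀ x ≤ K₁.card, (l.length : ℝ) + c' x ≤ cost D (XX Q (s + 1)) (d + 1) K.card x := by
          intro helim
          have hcardK₁ : D * K₁.card + K.card ≤ D * K.card := by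
            have h1 := card_le_card helim
            have hGK : G ⊆ K := filter_subset _ _
            rw [card_sdiff_of_subset hGK] at h1
            have h2 : G.card ≤ K.card := card_le_card hGK
            have h3 : K₁.card + G.card ≤ K.card := by omega
            calc D * K₁.card + K.card ≤ D * K₁.card + D * G.card := by omega
              _ = D * (K₁.card + G.card) := by ring
              _ ≤ D * K.card := Nat.mul_le_mul_left _ h3
          obtain ⟨t, ht⟩ := hrec o₁ K₁ hne₁ hcardK₁ hE₁ hcons₁ fun p hp => hsize p (hK₁' hp)
          refine ⟨t, _, ht, ?_⟩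
          intro ω hV ho hl x hx
          have h1 := hlen ω hV ho
          rw [hl] at h1
          have h2 := log_gap hD1 (card_pos.2 hne₁) hcardK₁
          unfold cost
          push_cast
          set y := Real.log K.card - Real.log K₁.card with hy
          have e1 : ((d : ℝ) + 1) ^ 2 * D * XX Q (s + 1) * (Real.log K.card - Real.log x) =
              ((d : ℝ) + 1) ^ 2 * D * XX Q (s + 1) * (Real.log K₁.card - Real.log x) +
              ((d : ℝ) + 1) ^ 2 * XX Q (s + 1) * (D * y) := by rw [hy]; ring
          have e2 : XX Q (s + 1) ≤ ((d : ℝ) + 1) ^ 2 * XX Q (s + 1) * (D * y) := by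
            calc XX Q (s + 1) = 1 * XX Q (s + 1) * 1 := by ring
              _ ≤ ((d : ℝ) + 1) ^ 2 * XX Q (s + 1) * (D * y) := by
                  have hd0 : (0 : ℝ) ≤ d := Nat.cast_nonneg d
                  have : (1 : ℝ) ≤ ((d : ℝ) + 1) ^ 2 := by nlinarith
                  gcongr
          rw [e1]
          linarith
        cases hτc : τ with
        | none =>
          apply hfinish
          intro p hp
          obtain ⟨a1, a2, a3⟩ := (mem_surv M).1 hp
          rw [mem_sdiff]
          refine ⟨a1, fun hpG => hnt₁ ?_⟩
          have hHp : H p = none := by rw [(mem_filter.1 hpG).2, hτc]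
          have hno : ¬ ∃ j ∈ top M E s p, ∃ o' ∈ o :: play (M.inst p.1) t₁ o.1, j ∈ o'.1 := by
            intro h
            rw [hH] at hHp
            simp only at hHp
            rw [dif_pos h] at hHp
            simp at hHp
          push Not at hno
          have hτ₁' : τ₁ = t₁ := by rw [hτ₁, hτc]; rfl
          rw [hτ₁'] at a2
          have hdis : Disjoint o.1 (top M E s p) := by
            rw [disjoint_left]
            intro i hi hi2
            exact hno i hi2 o (List.mem_cons_self) hi
          have h1 := ht₁.2.2 (p.1, p.2 \ top M E s p)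
            (mem_image_of_mem (fun p => (p.1, p.2 \ top M E s p)) (mem_filter.2 ⟨a1, hdis⟩)) (by
              intro o' ho'
              simp only at ho' ⊢
              intro i hi
              rw [mem_sdiff]
              refine ⟨a3 o' (by rw [← a2]; exact ho') hi, fun hi2 => ?_⟩
              exact hno i hi2 o' (List.mem_cons_of_mem _ ho') hi)
          simp only at h1
          rw [a2] at h1
          exact h1
        | some j =>
          have hτ₁' : τ₁ = trunc j t₁ o.1 := by rw [hτ₁, hτc]; rfl
          have hGspec : ∀ p ∈ G, j ∈ top M E s p ∧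
              ∃ o' ∈ o :: play (M.inst p.1) t₁ o.1, j ∈ o'.1 := by
            intro p hpG
            have hHp : H p = some j := by rw [(mem_filter.1 hpG).2, hτc]
            rw [hH] at hHp
            simp only at hHp
            split_ifs at hHp with h
            have := h.choose_spec
            rw [Option.some.injEq] at hHp
            rw [hHp] at this
            exact this
          by_cases hj : j ∈ o₁.1
          · -- phases 2 and 3
            have hGne : G.Nonempty := by
              rw [nonempty_iff_ne_empty]
              intro h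
              rw [h, card_empty, mul_zero] at hτ
              omega
            have hjE : j ∉ E := by
              obtain ⟨p, hp⟩ := hGne
              have := ((mem_top M).1 (hGspec p hp).1).1
              exact (mem_sdiff.1 this).2
            obtain ⟨t, ht⟩ := phase23 M (X := XX Q (s + 1)) (C := C) hD1 hC0 hX K hEd
              (fun o' K' hc hE' hcons' hsz => hcapAll (d + 1) (by omega) E o' K'
                (hlogle K' hc) hEd hE' hcons' hsz)
              (fun E' o' K' hc hEd' hE' hcons' hsz => ihd K'.card E' o' K' le_rfl
                (hlogle K' hc) hEd' hE' hcons' hsz)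
              hrec hsize hjE G (filter_subset _ _) (fun p hp => (hGspec p hp).1) hτ o₁ K₁ hK₁'
              hE₁ hcons₁ hj
            refine ⟨t, _, ht, ?_⟩
            intro ω hV ho hl x hx
            have h1 := hlen ω hV ho
            rw [hl] at h1
            linarith
          · -- not met
            apply hfinish
            intro p hp
            obtain ⟨a1, a2, a3⟩ := (mem_surv M).1 hp
            rw [mem_sdiff]
            refine ⟨a1, fun hpG => ?_⟩
            obtain ⟨-, o', ho', hjo'⟩ := hGspec p hpG
            rw [hτ₁'] at a2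
            have hob := (hcons p a1).2.1
            have h1 := trunc_not (M.inst p.1) j t₁ o.1 (by rw [hob, a2]; exact hj)
            rw [List.mem_cons] at ho'
            rcases ho' with h | h
            · rw [h] at hjo'; exact h1.2.1 hjo'
            · exact h1.2.2 o' h hjo'

end Pool.Agent.N597.QP
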