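import Mathlib
set_option autoImplicit false

/-!
# Pivoting strategies

A state is a set `B` of rows (the tight rows of a vertex), an observation is a pair (state, set of
rows which can be left improvingly). A strategy names a row to be left and continues according to
the next observation.
-/

namespace Pool.Agent.N597.QP

open Finset

variable {R : Type} [DecidableEq R]

/-- observations -/
abbrev Obs (R : Type) := Finset R × Finset R

/-- strategies -/
inductive Str (R : Type) : Type
  | stop : Str R
  | go : R → (Finset R × Finset R → Str R) → Str R

/-- an instance: improving rows `S B` and next state `N B r` -/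
structure Inst (R : Type) where
  S : Finset R → Finset R
  N : Finset R → R → Finset R

/-- the observation at a state -/
def Inst.ob (f : Inst R) (B : Finset R) : Obs R := (B, f.S B)

namespace Str

/-- the list of the observations after the steps of the strategy -/
def play (f : Inst R) : Str R → Finset R → List (Obs R)
  | stop, _ => []
  | go r k, B => f.ob (f.N B r) :: play f (k (f.ob (f.N B r))) (f.N B r)

/-- only improving rows outside `E` are left, whatever the observations are; `S` is the present
improving set -/
def Safe (E : Finset R) : Str R → Finset R → Prop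
  | stop, _ => True
  | go r k, S => r ∈ S ∧ r ∉ E ∧ ∀ o : Obs R, Safe E (k o) o.2

/-- composition -/
def comp : Str R → (List (Obs R) → Str R) → Str R
  | stop, g => g []
  | go r k, g => go r fun o => comp (k o) fun l => g (o :: l)

/-- stop as soon as the row `j` is tight -/
def trunc (j : R) : Str R → Finset R → Str R
  | stop, _ => stop
  | go r k, B => if j ∈ B then stop else go r fun o => trunc j (k o) o.1

end Str

open Str

/-- the last observation -/
def lst (o : Obs R) : List (Obs R) → Obs R
  | [] => o
  | o' :: l => lst o' l

omit [DecidableEq R] in
lemma lst_append (o : Obs R) (l l' : List (Obs R)) : lst o (l ++ l') = lst (lst o l) l' := by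
  induction l generalizing o with
  | nil => rfl
  | cons a l ih => simp [lst, ih]

omit [DecidableEq R] in
lemma lst_mem (o : Obs R) (l : List (Obs R)) : lst o l ∈ o :: l := by
  induction l generalizing o with
  | nil => simp [lst]
  | cons a l ih =>
    simp only [lst]
    exact List.mem_cons_of_mem _ (ih a)

omit [DecidableEq R] in
lemma lst_ob (f : Inst R) (t : Str R) (B : Finset R) :
    lst (f.ob B) (play f t B) = f.ob (lst (f.ob B) (play f t B)).1 := by
  induction t generalizing B with
  | stop => rfl
  | go r k ih =>
    simp only [play, lst]
    exact ih _ _

omit [DecidableEq R] in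
lemma play_mem (f : Inst R) (t : Str R) (B : Finset R) : ∀ o ∈ play f t B, o = f.ob o.1 := by
  induction t generalizing B with
  | stop => simp [play]
  | go r k ih =>
    intro o ho
    simp only [play, List.mem_cons] at ho
    rcases ho with rfl | ho
    · rfl
    · exact ih _ _ o ho

omit [DecidableEq R] in
lemma play_comp (f : Inst R) (t : Str R) (g : List (Obs R) → Str R) (B : Finset R) :
    play f (comp t g) B = play f t B ++
      play f (g (play f t B)) (lst (f.ob B) (play f t B)).1 := by
  induction t generalizing B g with
  | stop => simp [comp, play, lst, Inst.ob]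
  | go r k ih =>
    simp only [comp, play, lst, List.cons_append]
    rw [ih]

omit [DecidableEq R] in
lemma safe_comp (E : Finset R) (t : Str R) (g : List (Obs R) → Str R) (o₀ : Obs R)
    (h1 : Safe E t o₀.2)
    (h2 : ∀ l : List (Obs R), Safe E (g l) (lst o₀ l).2) : Safe E (comp t g) o₀.2 := by
  induction t generalizing o₀ g with
  | stop => simpa [comp, lst] using h2 []
  | go r k ih =>
    refine ⟨h1.1, h1.2.1, fun o => ?_⟩
    exact ih o (fun l => g (o :: l)) o (h1.2.2 o) (fun l => h2 (o :: l))

omit [DecidableEq R] in
lemma safe_mono {E E' : Finset R} (hE : E ⊆ E') {t : Str R} {S : Finset R} (h : Safe E' t S) :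
    Safe E t S := by
  induction t generalizing S with
  | stop => trivial
  | go r k ih => exact ⟨h.1, fun h2 => h.2.1 (hE h2), fun o => ih o (h.2.2 o)⟩

omit [DecidableEq R] in
/-- equal transcripts of a composition are equal in the first part -/
lemma play_comp_eq (f f' : Inst R) (t : Str R) (g : List (Obs R) → Str R) (B : Finset R)
    (h : play f (comp t g) B = play f' (comp t g) B) : play f t B = play f' t B := by
  induction t generalizing B g with
  | stop => rfl
  | go r k ih =>
    simp only [comp, play, List.cons.injEq] at h ⊢
    obtain ⟨h1, h2⟩ := h
    refine ⟨h1, ?_⟩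
    have h3 : f.N B r = f'.N B r := congrArg Prod.fst h1
    rw [← h1, ← h3] at h2 ⊢
    exact ih _ _ _ h2

lemma safe_trunc (E : Finset R) (j : R) (t : Str R) (B : Finset R) (S : Finset R)
    (h : Safe E t S) : Safe E (trunc j t B) S := by
  induction t generalizing B S with
  | stop => trivial
  | go r k ih =>
    unfold trunc
    split_ifs
    · trivial
    · exact ⟨h.1, h.2.1, fun o => ih o o.1 o.2 (h.2.2 o)⟩

lemma trunc_prefix (f : Inst R) (j : R) (t : Str R) (B : Finset R) :
    play f (trunc j t B) B <+: play f t B := by
  induction t generalizing B with
  | stop => simp [trunc, play]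
  | go r k ih =>
    unfold trunc
    split_ifs
    · simp [play]
    · simp only [play]
      rw [List.cons_prefix_cons]
      exact ⟨rfl, ih _ _⟩

/-- If the row was not met, then the strategy was not cut, and the row was never tight. -/
lemma trunc_not (f : Inst R) (j : R) (t : Str R) (B : Finset R)
    (h : j ∉ (lst (f.ob B) (play f (trunc j t B) B)).1) :
    play f (trunc j t B) B = play f t B ∧ j ∉ B ∧ ∀ o ∈ play f t B, j ∉ o.1 := by
  induction t generalizing B with
  | stop =>
    simp only [trunc, play, lst, Inst.ob] at h ⊢
    exact ⟨trivial, h, by simp⟩
  | go r k ih =>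
    by_cases hj : j ∈ B
    · unfold trunc at h
      rw [if_pos hj] at h
      exact absurd hj h
    · unfold trunc at h ⊢
      rw [if_neg hj] at h ⊢
      simp only [play, lst] at h ⊢
      obtain ⟨h1, h2, h3⟩ := ih _ _ h
      refine ⟨by simpa [Inst.ob] using h1, hj, ?_⟩
      intro o ho
      rw [List.mem_cons] at ho
      rcases ho with rfl | ho
      · exact h2
      · exact h3 o ho

end Pool.Agent.N597.QP
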